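import Mathlib
import Pool.Agent.R389.Sol
import Pool.Agent.K4H74.SC.Hom

/-!
# Solomon's induction theorem in terms of fixed points, and the signs of the permutations
-/

set_option autoImplicit false
set_option linter.unusedSectionVars false

namespace Pool.Agent.K9h41.DC

open Pool.Agent.R389 Pool.Agent.K4H74.SC

section rel

variable {G : Type} [Group G] [Finite G]

/-- integral combinations of the permutation characters of the hyperelementary subgroups of `V` -/
def SolV (V : Subgroup G) : AddSubgroup (G → ℂ) where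
  carrier := {f | ∃ c : Subgroup G → ℤ, (∀ U, c U ≠ 0 → Hyper U ∧ U ≤ V) ∧
    ∀ g : G, ∑ᶠ U, (c U : ℂ) * ind U (fun _ => (1 : ℂ)) g = f g}
  zero_mem' := ⟨0, fun U h => absurd rfl h, fun g => by simp⟩
  add_mem' := by
    rintro a b ⟨c, hc, h⟩ ⟨c', hc', h'⟩
    refine ⟨c + c', fun U hU => ?_, fun g => ?_⟩
    · by_cases h0 : c U = 0
      · exact hc' U (by intro h1; apply hU; simp [h0, h1])
      · exact hc U h0
    · rw [Pi.add_apply, ← h g, ← h' g, ← finsum_add_distrib (Set.toFinite _) (Set.toFinite _)]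
      refine finsum_congr fun U => ?_
      simp only [Pi.add_apply]
      push_cast
      ring
  neg_mem' := by
    rintro a ⟨c, hc, h⟩
    refine ⟨-c, fun U hU => hc U (by intro h0; apply hU; simp [h0]), fun g => ?_⟩
    rw [Pi.neg_apply, ← h g, ← finsum_neg_distrib]
    refine finsum_congr fun U => ?_
    simp

lemma exists_coeff (V : Subgroup G) : ∃ c : Subgroup G → ℤ, (∀ U, c U ≠ 0 → Hyper U ∧ U ≤ V) ∧
    ∀ g : G, ∑ᶠ U, (c U : ℂ) * ind U (fun _ => (1 : ℂ)) g = ind V (fun _ => (1 : ℂ)) g := by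
  classical
  have h1 : Sol V ≤ (SolV V).comap (indHom V) := by
    rw [Sol, AddSubgroup.closure_le]
    rintro f ⟨U, hU, rfl⟩
    rw [SetLike.mem_coe, AddSubgroup.mem_comap, indHom_apply, ind_ind]
    refine ⟨Pi.single (U.map V.subtype) 1, fun W hW => ?_, fun g => ?_⟩
    · have h2 : W = U.map V.subtype := by
        by_contra h3
        exact hW (Pi.single_eq_of_ne h3 _)
      subst h2
      exact ⟨hU.of_injective
        (U.equivMapOfInjective V.subtype V.subtype_injective).symm.toMonoidHom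
        (U.equivMapOfInjective V.subtype V.subtype_injective).symm.injective,
        Subgroup.map_subtype_le U⟩
    · rw [finsum_eq_single _ (U.map V.subtype)]
      · rw [Pi.single_eq_same, Int.cast_one, one_mul]
        rfl
      · intro W hW
        rw [Pi.single_eq_of_ne hW, Int.cast_zero, zero_mul]
  exact h1 one_mem_sol

/-- the number of the cosets of `U` fixed by `g` -/
noncomputable def fx (U : Subgroup G) (g : G) : ℕ := Nat.card {x : G ⧸ U // g • x = x}

lemma smul_coset_iff (U : Subgroup G) (g x : G) : g • (x : G ⧸ U) = x ↔ x⁻¹ * g * x ∈ U := by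
  rw [eq_comm]
  change (x : G ⧸ U) = ((g * x : G) : G ⧸ U) ↔ _
  rw [QuotientGroup.eq, mul_assoc]

lemma ind_one (U : Subgroup G) (g : G) : ind U (fun _ => (1 : ℂ)) g = fx U g := by
  classical
  have : Fintype G := Fintype.ofFinite G
  have : Fintype U := Fintype.ofFinite U
  have : Fintype (G ⧸ U) := Fintype.ofFinite _
  have hU : (Nat.card U : ℂ) ≠ 0 := by exact_mod_cast Nat.card_pos.ne'
  rw [ind_eq]
  have h1 : ∀ x : G, ext U (fun _ => (1 : ℂ)) (x⁻¹ * g * x)
      = if g • (x : G ⧸ U) = x then 1 else 0 := by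
    intro x
    by_cases h : x⁻¹ * g * x ∈ U
    · rw [ext_mem _ _ h, if_pos ((smul_coset_iff U g x).mpr h)]
    · rw [ext_not _ _ h, if_neg (fun h3 => h ((smul_coset_iff U g x).mp h3))]
  rw [Finset.sum_congr rfl (fun x _ => h1 x)]
  have h3 : ∑ x : G, (if g • (x : G ⧸ U) = x then (1 : ℂ) else 0)
      = ∑ y : (G ⧸ U) × U, (if g • y.1 = y.1 then (1 : ℂ) else 0) := by
    rw [← Equiv.sum_comp (Subgroup.groupEquivQuotientProdSubgroup (s := U))]
    rfl
  have h4 : ∑ q : G ⧸ U, (if g • q = q then (1 : ℂ) else 0) = fx U g := by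
    rw [Finset.sum_boole, fx, Nat.card_eq_fintype_card, Fintype.card_subtype]
  have h5 : ∀ q : G ⧸ U, ∑ _u : U, (if g • q = q then (1 : ℂ) else 0)
      = (Nat.card U : ℂ) * (if g • q = q then 1 else 0) := by
    intro q
    rw [Finset.sum_const, Finset.card_univ, nsmul_eq_mul, ← Nat.card_eq_fintype_card]
  rw [h3, Fintype.sum_prod_type, Finset.sum_congr rfl (fun q _ => h5 q), ← Finset.mul_sum, h4,
    ← mul_assoc, inv_mul_cancel₀ hU, one_mul]

open Classical in
/-- the sign of the permutation of the cosets of `U` -/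
noncomputable def sg (U : Subgroup G) (g : G) : ℂ :=
  letI := Fintype.ofFinite (G ⧸ U)
  ((Equiv.Perm.sign (MulAction.toPermHom G (G ⧸ U) g) : ℤ) : ℂ)

lemma sg_ne (U : Subgroup G) (g : G) : sg U g ≠ 0 := by
  classical
  rw [sg]
  let := Fintype.ofFinite (G ⧸ U)
  have := (Equiv.Perm.sign (MulAction.toPermHom G (G ⧸ U) g)).ne_zero
  exact_mod_cast this

lemma permMatrix_pow {X : Type} [Fintype X] [DecidableEq X] (π : Equiv.Perm X) (k : ℕ) :
    (π ^ k).permMatrix ℂ = (π.permMatrix ℂ) ^ k := by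
  induction k with
  | zero => rw [pow_zero, pow_zero, Matrix.permMatrix_one]
  | succ k ih => rw [pow_succ, pow_succ', Matrix.permMatrix_mul, ih]

lemma detOf_fx (U : Subgroup G) (g : G) : DetOf (fun k => (fx U (g ^ k) : ℂ)) (sg U g) := by
  classical
  let := Fintype.ofFinite (G ⧸ U)
  let π : Equiv.Perm (G ⧸ U) := MulAction.toPermHom G (G ⧸ U) g
  refine ⟨(G ⧸ U) → ℂ, inferInstance, inferInstance, inferInstance,
    Matrix.toLin' (π.permMatrix ℂ), fun k => ?_, ?_⟩
  · rw [← Matrix.toLin'_pow, ← permMatrix_pow, Matrix.trace_toLin'_eq, Matrix.trace_permutation]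
    congr 1
    change Nat.card _ = _
    rw [fx]
    refine Nat.card_congr (Equiv.subtypeEquivRight fun x => ?_)
    have h : π ^ k = MulAction.toPermHom G (G ⧸ U) (g ^ k) := (map_pow _ _ _).symm
    rw [h]
    rfl
  · rw [LinearMap.det_toLin', Matrix.det_permutation, sg]

lemma mk_zero : DetOf (fun _ => 0) 1 := by
  refine ⟨Fin 0 → ℂ, inferInstance, inferInstance, inferInstance, 1, fun k => ?_, by simp⟩
  rw [one_pow, LinearMap.trace_one]
  simp

lemma mk_add {t t' : ℕ → ℂ} {r r' : ℂ} (h : DetOf t r) (h' : DetOf t' r') :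
    DetOf (fun k => t k + t' k) (r * r') := by
  obtain ⟨V, _, _, _, T, hT, rfl⟩ := h
  obtain ⟨V', _, _, _, T', hT', rfl⟩ := h'
  refine ⟨V × V', inferInstance, inferInstance, inferInstance, LinearMap.prodMap T T',
    fun k => ?_, ?_⟩
  · have h1 : (LinearMap.prodMap T T') ^ k = LinearMap.prodMap (T ^ k) (T' ^ k) := by
      induction k with
      | zero => rfl
      | succ k ih =>
        rw [pow_succ, ih, pow_succ, pow_succ]
        rfl
    rw [h1, LinearMap.trace_prodMap', hT, hT']
  · rw [LinearMap.det_prodMap]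

lemma mk_nsmul {t : ℕ → ℂ} {r : ℂ} (h : DetOf t r) (n : ℕ) :
    DetOf (fun k => n * t k) (r ^ n) := by
  induction n with
  | zero => simpa using mk_zero
  | succ n ih =>
    have h1 := mk_add ih h
    rw [pow_succ]
    convert h1 using 2 with k
    push_cast
    ring

lemma mk_sum {ι : Type} (s : Finset ι) {t : ι → ℕ → ℂ} {r : ι → ℂ}
    (h : ∀ i ∈ s, DetOf (t i) (r i)) :
    DetOf (fun k => ∑ i ∈ s, t i k) (∏ i ∈ s, r i) := by
  classical
  induction s using Finset.induction_on with
  | empty => simpa using mk_zero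
  | insert a s ha ih =>
    have h1 := mk_add (h a (Finset.mem_insert_self a s))
      (ih fun i hi => h i (Finset.mem_insert_of_mem hi))
    rw [Finset.prod_insert ha]
    convert h1 using 2 with k
    rw [Finset.sum_insert ha]

/-- **the product of the signs** -/
lemma prod_sg [Fintype (Subgroup G)] (c : Subgroup G → ℤ) (V : Subgroup G)
    (h : ∀ g : G, ∑ U, (c U : ℂ) * fx U g = fx V g) (g : G) :
    ∏ U, sg U g ^ c U = sg V g := by
  classical
  have h1 : DetOf (fun k => ∑ U, ((c U).toNat : ℂ) * fx U (g ^ k)) (∏ U, sg U g ^ (c U).toNat) :=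
    mk_sum _ fun U _ => mk_nsmul (detOf_fx U g) _
  have h2 : DetOf (fun k => ∑ U, ((-c U).toNat : ℂ) * fx U (g ^ k))
      (∏ U, sg U g ^ (-c U).toNat) :=
    mk_sum _ fun U _ => mk_nsmul (detOf_fx U g) _
  have h3 := DetOf.add h1 (detOf_fx V g) h2 (fun k => by
    rw [← h (g ^ k), ← Finset.sum_add_distrib]
    refine Finset.sum_congr rfl fun U _ => ?_
    have h4 : ((c U : ℤ) : ℂ) = ((c U).toNat : ℂ) - ((-c U).toNat : ℂ) := by
      have := Int.toNat_sub_toNat_neg (c U)
      exact_mod_cast this.symm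
    rw [h4]
    ring)
  have h5 : ∀ U, sg U g ^ c U = sg U g ^ (c U).toNat / sg U g ^ (-c U).toNat := by
    intro U
    rw [← zpow_natCast, ← zpow_natCast, ← zpow_sub₀ (sg_ne U g), Int.toNat_sub_toNat_neg]
  rw [Finset.prod_congr rfl (fun U _ => h5 U), Finset.prod_div_distrib, h3, mul_div_assoc,
    div_self, mul_one]
  exact Finset.prod_ne_zero_iff.mpr fun U _ => pow_ne_zero _ (sg_ne U g)

/-- the relation in terms of the fixed points -/
lemma exists_coeff' [Fintype (Subgroup G)] (V : Subgroup G) : ∃ c : Subgroup G → ℤ,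
    (∀ U, c U ≠ 0 → Hyper U ∧ U ≤ V) ∧
    (∀ g : G, ∑ U, (c U : ℂ) * ind U (fun _ => (1 : ℂ)) g = ind V (fun _ => (1 : ℂ)) g) ∧
    (∀ g : G, ∑ U, c U * (fx U g : ℤ) = fx V g) ∧ ∀ g : G, ∏ U, sg U g ^ c U = sg V g := by
  obtain ⟨c, h1, h2⟩ := exists_coeff V
  have h3 : ∀ g : G, ∑ U, (c U : ℂ) * ind U (fun _ => (1 : ℂ)) g = ind V (fun _ => (1 : ℂ)) g := by
    intro g
    rw [← h2 g, finsum_eq_sum_of_fintype]
  have h4 : ∀ g : G, ∑ U, (c U : ℂ) * fx U g = fx V g := by
    intro g
    have := h3 g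
    rw [ind_one] at this
    rw [← this]
    exact Finset.sum_congr rfl fun U _ => by rw [ind_one]
  refine ⟨c, h1, h3, fun g => ?_, prod_sg c V h4⟩
  exact_mod_cast h4 g

end rel

end Pool.Agent.K9h41.DC
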