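import Mathlib
import Pool.Agent.K9h41.DC.Gp

/-!
# Embeddings and discriminants of the fixed fields
-/

set_option autoImplicit false
set_option linter.unusedSectionVars false

namespace Pool.Agent.K9h41.DC

open NumberField NumberField.InfinitePlace IntermediateField

variable {K : Type} [Field K] [NumberField K] [IsGalois ℚ K] (φ : K →ₐ[ℚ] ℂ)
  (U : Subgroup (K ≃ₐ[ℚ] K))

/-- the embedding of the fixed field of `U` given by an element of the group -/
noncomputable def emb (x : K ≃ₐ[ℚ] K) : fixedField U →ₐ[ℚ] ℂ :=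
  φ.comp ((x : K →ₐ[ℚ] K).comp (fixedField U).val)

lemma emb_apply (x : K ≃ₐ[ℚ] K) (a : fixedField U) : emb φ U x a = φ (x a) := rfl

lemma emb_eq_iff (x y : K ≃ₐ[ℚ] K) : emb φ U x = emb φ U y ↔ x⁻¹ * y ∈ U := by
  constructor
  · intro h
    have h0 : x⁻¹ * y ∈ fixingSubgroup (fixedField U) := by
      rw [IntermediateField.mem_fixingSubgroup_iff]
      intro a ha
      have h1 := congrArg (fun f => f ⟨a, ha⟩) h
      have h2 : x a = y a := φ.injective h1
      change x⁻¹ (y a) = a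
      rw [← h2]
      exact x.symm_apply_apply a
    rwa [fixingSubgroup_fixedField] at h0
  · intro h
    ext a
    have h1 : (x⁻¹ * y) (a : K) = a := (mem_fixedField_iff U (a : K)).mp a.2 _ h
    rw [emb_apply, emb_apply]
    congr 1
    have h2 : x ((x⁻¹ * y) (a : K)) = y (a : K) := x.apply_symm_apply (y (a : K))
    rw [← h2, h1]

/-- the cosets of `U` and the embeddings of the fixed field -/
noncomputable def embQ : (K ≃ₐ[ℚ] K) ⧸ U → (fixedField U →ₐ[ℚ] ℂ) :=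
  Quotient.lift (emb φ U)
    (fun x y h => (emb_eq_iff φ U x y).mpr (QuotientGroup.leftRel_apply.mp h))

lemma embQ_mk (x : K ≃ₐ[ℚ] K) : embQ φ U (x : (K ≃ₐ[ℚ] K) ⧸ U) = emb φ U x := rfl

lemma embQ_inj : Function.Injective (embQ φ U) := by
  intro a b
  obtain ⟨x, rfl⟩ := QuotientGroup.mk_surjective a
  obtain ⟨y, rfl⟩ := QuotientGroup.mk_surjective b
  intro h
  exact QuotientGroup.eq.mpr ((emb_eq_iff φ U x y).mp h)

lemma card_quot : Nat.card ((K ≃ₐ[ℚ] K) ⧸ U) = Module.finrank ℚ (fixedField U) := by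
  have h1 := finrank_fixedField_eq_card U
  have h2 := Module.finrank_mul_finrank ℚ (fixedField U) K
  have h3 := IsGalois.card_aut_eq_finrank ℚ K
  have h4 := Subgroup.card_eq_card_quotient_mul_card_subgroup U
  have h5 : 0 < Nat.card U := Nat.card_pos
  rw [h3, ← h2, h1] at h4
  exact (Nat.eq_of_mul_eq_mul_right h5 h4).symm

lemma embQ_bij : Function.Bijective (embQ φ U) := by
  classical
  let := Fintype.ofFinite ((K ≃ₐ[ℚ] K) ⧸ U)
  rw [Fintype.bijective_iff_injective_and_card]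
  refine ⟨embQ_inj φ U, ?_⟩
  rw [← Nat.card_eq_fintype_card, card_quot, AlgHom.card]

/-- the cosets of `U` and the embeddings of the fixed field -/
noncomputable def embE : (K ≃ₐ[ℚ] K) ⧸ U ≃ (fixedField U →ₐ[ℚ] ℂ) :=
  Equiv.ofBijective _ (embQ_bij φ U)

lemma embE_mk (x : K ≃ₐ[ℚ] K) : embE φ U (x : (K ≃ₐ[ℚ] K) ⧸ U) = emb φ U x := rfl

lemma exists_cc : ∃ g : K ≃ₐ[ℚ] K, ∀ x, φ (g x) = star (φ x) := by
  obtain ⟨σ, hσ⟩ := NumberField.ComplexEmbedding.exists_comp_symm_eq_of_comp_eq (k := ℚ) (φ : K →+* ℂ)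
    (ComplexEmbedding.conjugate (φ : K →+* ℂ)) (by
      apply RingHom.ext
      intro q
      simp)
  exact ⟨σ.symm, fun x => RingHom.congr_fun hσ x⟩

lemma fx_one : fx U 1 = Module.finrank ℚ (fixedField U) := by
  rw [← card_quot, fx]
  simp only [one_smul]
  exact Nat.card_congr (Equiv.subtypeUnivEquiv fun _ => trivial)

lemma fx_real (g : K ≃ₐ[ℚ] K) (hg : ∀ x, φ (g x) = star (φ x)) :
    fx U g = nrRealPlaces (fixedField U) := by
  classical
  rw [← card_real_embeddings, fx, ← Nat.card_eq_fintype_card]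
  let e1 : ((K ≃ₐ[ℚ] K) ⧸ U) ≃ (fixedField U →+* ℂ) :=
    (embE φ U).trans (RingHom.equivRatAlgHom (fixedField U) ℂ).symm
  refine Nat.card_congr (e1.subtypeEquiv fun q => ?_)
  obtain ⟨x, rfl⟩ := QuotientGroup.mk_surjective q
  rw [ComplexEmbedding.isReal_iff]
  have h1 : ∀ a : fixedField U, e1 (x : (K ≃ₐ[ℚ] K) ⧸ U) a = φ (x a) := fun a => rfl
  have h2 : g • (x : (K ≃ₐ[ℚ] K) ⧸ U) = ((g * x : K ≃ₐ[ℚ] K) : (K ≃ₐ[ℚ] K) ⧸ U) := rfl
  rw [h2, ← (embE φ U).injective.eq_iff, embE_mk, embE_mk]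
  constructor
  · intro h
    ext a
    rw [ComplexEmbedding.conjugate_coe_eq, h1]
    have h3 := congrArg (fun f => f a) h
    change φ (g (x a)) = φ (x a) at h3
    rw [hg] at h3
    exact h3
  · intro h
    ext a
    have h3 := RingHom.congr_fun h a
    rw [ComplexEmbedding.conjugate_coe_eq, h1] at h3
    change φ (g (x a)) = φ (x a)
    rw [hg]
    exact h3

lemma exists_disc : ∃ d : K, (φ d) ^ 2 = (discr (fixedField U) : ℂ) ∧
    ∀ g : K ≃ₐ[ℚ] K, φ (g d) = sg U g * φ d := by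
  classical
  let := Fintype.ofFinite ((K ≃ₐ[ℚ] K) ⧸ U)
  let b := integralBasis (fixedField U)
  have hcard : Fintype.card ((K ≃ₐ[ℚ] K) ⧸ U)
      = Fintype.card (Module.Free.ChooseBasisIndex ℤ (𝓞 (fixedField U))) := by
    rw [← Nat.card_eq_fintype_card, card_quot, Module.finrank_eq_card_basis b]
  let i : ((K ≃ₐ[ℚ] K) ⧸ U) ≃ Module.Free.ChooseBasisIndex ℤ (𝓞 (fixedField U)) :=
    Fintype.equivOfCardEq hcard
  let act : ((K ≃ₐ[ℚ] K) ⧸ U) → fixedField U → K := fun q a => q.out (a : K)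
  have hact : ∀ (x : K ≃ₐ[ℚ] K) (a : fixedField U), act (x : (K ≃ₐ[ℚ] K) ⧸ U) a = x a := by
    intro x a
    have h1 : (((x : (K ≃ₐ[ℚ] K) ⧸ U).out : K ≃ₐ[ℚ] K) : (K ≃ₐ[ℚ] K) ⧸ U) = x :=
      QuotientGroup.out_eq' _
    have h2 := congrArg (embQ φ U) h1
    rw [embQ_mk, embQ_mk] at h2
    have h3 := congrArg (fun f => f a) h2
    exact φ.injective h3
  let N : Matrix ((K ≃ₐ[ℚ] K) ⧸ U) ((K ≃ₐ[ℚ] K) ⧸ U) K :=
    Matrix.of fun j q => act q (b (i j))
  refine ⟨N.det, ?_, fun g => ?_⟩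
  · have h1 : (discr (fixedField U) : ℂ) = algebraMap ℚ ℂ (Algebra.discr ℚ (b ∘ i)) := by
      have h2 := Algebra.discr_reindex ℚ b i.symm
      rw [Equiv.symm_symm] at h2
      rw [h2, ← coe_discr]
      simp
    rw [h1, Algebra.discr_eq_det_embeddingsMatrixReindex_pow_two ℚ ℂ (b ∘ i) (embE φ U)]
    congr 1
    rw [AlgHom.map_det]
    congr 1
    ext j q
    obtain ⟨x, rfl⟩ := QuotientGroup.mk_surjective q
    change φ (act x (b (i j))) = embE φ U x (b (i j))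
    rw [hact]
    rfl
  · rw [← AlgEquiv.coe_toAlgHom g, AlgHom.map_det]
    have h1 : (g : K →ₐ[ℚ] K).mapMatrix N
        = N.submatrix id (MulAction.toPermHom (K ≃ₐ[ℚ] K) ((K ≃ₐ[ℚ] K) ⧸ U) g) := by
      ext j q
      obtain ⟨x, rfl⟩ := QuotientGroup.mk_surjective q
      change g (act x (b (i j))) = act ((g * x : K ≃ₐ[ℚ] K) : (K ≃ₐ[ℚ] K) ⧸ U) (b (i j))
      rw [hact, hact]
      rfl
    rw [h1, Matrix.det_permute', map_mul, sg]
    congr 1
    simp

end Pool.Agent.K9h41.DC
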