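import Mathlib

/-!
# Deligne's conjecture: the definitions
-/

set_option autoImplicit false

namespace Pool.Agent.K9h41.DC

open NumberField NumberField.InfinitePlace Polynomial Filter Topology IsDedekindDomain

/-- The data of a motive `M` over `ℚ` with coefficients in `E`, pure of weight `w` and without
`(w/2, w/2)`-classes, which enter Deligne's conjecture. -/
structure MotiveData (E : Type) [Field E] where
  /-- the weight -/
  w : ℤ
  /-- half the rank: `n = dim M⁺ = dim M⁻ = dim M_DR / F` -/
  n : ℕ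
  /-- a finite set of prime numbers, with all primes of bad reduction -/
  bad : Finset ℕ
  /-- the characteristic polynomial of the geometric Frobenius at `p` -/
  frob : ℕ → E[X]
  monic : ∀ p, p.Prime → p ∉ bad → (frob p).Monic ∧ (frob p).natDegree = 2 * n
  pure : ∀ p, p.Prime → p ∉ bad → ∀ (ι : E →+* ℂ) (α : ℂ), ((frob p).map ι).IsRoot α →
    ‖α‖ = (p : ℝ) ^ ((w : ℝ) / 2)
  /-- the matrix of Deligne's isomorphism `I⁺ : M⁺ ⊗ ℂ → (M_DR / F) ⊗ ℂ` in bases over `E`, for
  every embedding of `E` -/
  Iplus : (E →+* ℂ) → Matrix (Fin n) (Fin n) ℂ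
  /-- the matrix of `I⁻ : M⁻ ⊗ ℂ → (M_DR / F) ⊗ ℂ` -/
  Iminus : (E →+* ℂ) → Matrix (Fin n) (Fin n) ℂ
  Iplus_det : ∀ ι, (Iplus ι).det ≠ 0
  Iminus_det : ∀ ι, (Iminus ι).det ≠ 0

section defs

variable {E : Type} [Field E] (D : MotiveData E) (ι : E →+* ℂ) (k : Type) [Field k] [NumberField k]

/-- Deligne's period `c^ε(M)` at the embedding `ι` of `E`, where `ε` is the sign of `(-1)^m`. -/
noncomputable def MotiveData.period (m : ℤ) : ℂ :=
  if Even m then (D.Iplus ι).det else (D.Iminus ι).det

/-- The Euler factor at the prime `v` of `k` and the embedding `ι` of `E` of the L-function of the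
base change `M_k` of `M` to the number field `k`: if `N = p ^ f` is the norm of `v`, and if `p` is
not in the finite set `bad`, it is the product of the `(1 - α^f N^(-s))⁻¹` over the eigenvalues `α`
of the Frobenius at `p`. The Euler factors above the primes in `bad` are left out. -/
noncomputable def eulerFactor (v : HeightOneSpectrum (𝓞 k)) (s : ℂ) : ℂ :=
  if (Ideal.absNorm v.asIdeal).minFac ∈ D.bad then 1
  else ((((D.frob (Ideal.absNorm v.asIdeal).minFac).map ι).roots.map fun α =>
    1 - α ^ (Ideal.absNorm v.asIdeal).factorization (Ideal.absNorm v.asIdeal).minFac *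
      (Ideal.absNorm v.asIdeal : ℂ) ^ (-s)).prod)⁻¹

/-- The L-function `L(s, M_k)`, which is the Euler product for `Re s > 1 + w/2`, has a meromorphic
continuation to a neighbourhood of the half plane `Re s ≥ m`, and the value `z` at `m`. -/
def HasLValue (m : ℤ) (z : ℂ) : Prop :=
  ∃ f : ℂ → ℂ, (∀ s : ℂ, (m : ℝ) ≤ s.re → MeromorphicAt f s) ∧
    (∀ s : ℂ, 1 + (D.w : ℝ) / 2 < s.re → HasProd (fun v => eulerFactor D ι k v s) (f s)) ∧
    Tendsto f (𝓝[≠] (m : ℂ)) (𝓝 z)

/-- **Deligne's conjecture at the integer `m` for the base change `M_k`, with the number `e`** of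
the coefficient field. The base change `M_k` is regarded as a motive over `ℚ` (restriction of
scalars); if `ε` is the sign of `(-1)^m`, its period is
`c^ε(M)^(r₁ + r₂) c^(-ε)(M)^(r₂) √d^n`, where `k` has `r₁` real and `r₂` complex places and the
discriminant `d`. -/
def DeligneWith (m : ℤ) (e : E) : Prop :=
  ∃ δ : ℂ, δ ^ 2 = (discr k : ℂ) ∧ ∀ ι : E →+* ℂ, HasLValue D ι k m
    (ι e * ((2 * Real.pi * Complex.I) ^ (m * (D.n * Module.finrank ℚ k : ℕ)) *
      (D.period ι m ^ (nrRealPlaces k + nrComplexPlaces k) *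
        D.period ι (m + 1) ^ nrComplexPlaces k * δ ^ D.n)))

end defs

/-- Hyperelementary groups: for some prime number `p` there is a normal cyclic subgroup of an order
prime to `p` whose quotient is a `p`-group. -/
def Hyperelementary (U : Type) [Group U] : Prop :=
  ∃ p : ℕ, p.Prime ∧ ∃ c : U, (orderOf c).Coprime p ∧
    (∀ u : U, u * c * u⁻¹ ∈ Subgroup.zpowers c) ∧ ∀ u : U, ∃ k : ℕ, u ^ (p ^ k) ∈ Subgroup.zpowers c

end Pool.Agent.K9h41.DC
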