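import Mathlib
import Pool.Agent.K4H74.SC.ArtL
import Pool.Agent.K4H74.SC.Sum
import Pool.Agent.K4H74.ST.Inv

/-!
# Artin L-series with weights which depend only on the norms of the prime powers
-/

set_option autoImplicit false
set_option linter.unusedSectionVars false

namespace Pool.Agent.K9h41.DC

open NumberField Ideal IsDedekindDomain Pool.Agent.K4H74.ST Pool.Agent.K4H74.SC

section defs

variable (w : ℕ → ℂ) (K L : Type) [Field K] [NumberField K] [Field L] [NumberField L] [Algebra K L]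

/-- the term of the logarithm of the Artin L-series of `χ` with the weights `w` which belongs to
the power `p ^ n` of the prime `p` -/
noncomputable def wTerm (χ : (L ≃ₐ[K] L) → ℂ) (s : ℂ) (x : HeightOneSpectrum (𝓞 K) × ℕ+) : ℂ :=
  w (absNorm x.1.asIdeal ^ (x.2 : ℕ)) * logTerm K L χ s x

end defs

section basic

variable {w : ℕ → ℂ} {K L : Type} [Field K] [NumberField K] [Field L] [NumberField L] [Algebra K L]

lemma wTerm_add (χ χ' : (L ≃ₐ[K] L) → ℂ) (s : ℂ) (x : HeightOneSpectrum (𝓞 K) × ℕ+) :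
    wTerm w K L (χ + χ') s x = wTerm w K L χ s x + wTerm w K L χ' s x := by
  have := x.1.isPrime
  rw [wTerm, wTerm, wTerm, logTerm, logTerm, logTerm, frobMean_add χ χ' x.1.ne_bot, add_div,
    mul_add]

/-- the weights grow at most like `q ^ b` -/
def Bdd (w : ℕ → ℂ) (b : ℝ) : Prop := ∃ C : ℝ, ∀ q : ℕ, 2 ≤ q → ‖w q‖ ≤ C * (q : ℝ) ^ b

lemma logTerm_shift (χ : (L ≃ₐ[K] L) → ℂ) (s : ℂ) (b : ℝ) (x : HeightOneSpectrum (𝓞 K) × ℕ+) :
    ‖logTerm K L χ (s - b) x‖ =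
      ‖logTerm K L χ s x‖ * ((absNorm x.1.asIdeal ^ (x.2 : ℕ) : ℕ) : ℝ) ^ b := by
  have hN : 0 < absNorm x.1.asIdeal := absNorm_pos x.1
  have hN0 : (0 : ℝ) < (absNorm x.1.asIdeal : ℝ) := by exact_mod_cast hN
  rw [logTerm, logTerm, norm_div, norm_div, norm_mul, norm_mul]
  have h1 : ∀ z : ℂ, ‖(absNorm x.1.asIdeal : ℂ) ^ z‖ = (absNorm x.1.asIdeal : ℝ) ^ z.re := by
    intro z
    exact Complex.norm_natCast_cpow_of_pos hN z
  rw [h1, h1]
  have h2 : ((((x.2 : ℕ) : ℂ) * (s - b)).re) = (((x.2 : ℕ) : ℂ) * s).re - (x.2 : ℕ) * b := by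
    simp [Complex.mul_re, mul_sub]
  rw [h2, Real.rpow_sub hN0]
  have h3 : ((absNorm x.1.asIdeal ^ (x.2 : ℕ) : ℕ) : ℝ) ^ b
      = (absNorm x.1.asIdeal : ℝ) ^ (((x.2 : ℕ) : ℝ) * b) := by
    push_cast
    rw [← Real.rpow_natCast, ← Real.rpow_mul hN0.le]
  rw [h3]
  have h4 : (0 : ℝ) < (absNorm x.1.asIdeal : ℝ) ^ (((x.2 : ℕ) : ℝ) * b) :=
    Real.rpow_pos_of_pos hN0 _
  have h5 : (0 : ℝ) < (absNorm x.1.asIdeal : ℝ) ^ ((((x.2 : ℕ) : ℂ) * s).re) :=
    Real.rpow_pos_of_pos hN0 _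
  have h6 : (0 : ℝ) < ‖((x.2 : ℕ) : ℂ)‖ := by
    rw [norm_pos_iff]
    exact_mod_cast x.2.2.ne'
  field_simp

lemma two_le_pow (x : HeightOneSpectrum (𝓞 K) × ℕ+) : 2 ≤ absNorm x.1.asIdeal ^ (x.2 : ℕ) :=
  (two_le_absNorm x.1).trans (Nat.le_self_pow x.2.2.ne' _)

theorem wTerm_summable {b : ℝ} (hw : Bdd w b) (χ : (L ≃ₐ[K] L) → ℂ) {s : ℂ}
    (hs : 1 + b < s.re) : Summable (wTerm w K L χ s) := by
  obtain ⟨C, hC⟩ := hw
  have h1 : Summable (logTerm K L χ (s - b)) := logTerm_summable χ (by simp; linarith)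
  refine Summable.of_norm_bounded (h1.norm.mul_left C) fun x => ?_
  rw [wTerm, norm_mul, logTerm_shift]
  have h2 := hC _ (two_le_pow x)
  calc _ ≤ C * ((absNorm x.1.asIdeal ^ (x.2 : ℕ) : ℕ) : ℝ) ^ b * ‖logTerm K L χ s x‖ :=
        mul_le_mul_of_nonneg_right h2 (norm_nonneg _)
    _ = _ := by ring

end basic

section infl

variable {w : ℕ → ℂ} {K L N : Type} [Field K] [NumberField K] [Field L] [NumberField L] [Field N]
  [NumberField N] [Algebra K L] [Algebra L N] [Algebra K N] [IsScalarTower K L N] [IsGalois K L]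
  [IsGalois K N]

theorem wTerm_infl {χ : (L ≃ₐ[K] L) → ℂ} (hχ : IsChar χ) (s : ℂ) :
    wTerm w K N (fun g => χ (AlgEquiv.restrictNormalHom L g)) s = wTerm w K L χ s := by
  funext x
  rw [wTerm, wTerm, logTerm_infl hχ]

end infl

section ind

variable {w : ℕ → ℂ} {K F L : Type} [Field K] [NumberField K] [Field F] [NumberField F] [Field L]
  [NumberField L] [Algebra K F] [Algebra F L] [Algebra K L] [IsScalarTower K F L] [IsGalois K L]
  [IsGalois F L]

/-- **induction** -/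
theorem hasSum_wind {χ : (L ≃ₐ[F] L) → ℂ} {s l : ℂ} (hl1 : HasSum (wTerm w F L χ s) l) :
    HasSum (wTerm w K L (indChar K F L χ) s) l := by
  classical
  let e := Equiv.sigmaFiberEquiv (idx (F := F) K)
  have h1 : HasSum (wTerm w F L χ s ∘ e) l := (Equiv.hasSum_iff e).mpr hl1
  refine h1.sigma fun b => ?_
  -- the fibre
  obtain ⟨p, n⟩ := b
  have hpp := p.isPrime
  let D : Finset (Ideal (𝓞 F)) := (pr_finite F p.ne_bot).toFinset.filter
    fun q => q.inertiaDeg (𝓞 K) ∣ (n : ℕ)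
  have hD : ∀ q ∈ D, q.IsPrime ∧ q.LiesOver p.asIdeal ∧ q ≠ ⊥ ∧ q.inertiaDeg (𝓞 K) ∣ (n : ℕ) := by
    intro q hq
    rw [Finset.mem_filter, Set.Finite.mem_toFinset] at hq
    obtain ⟨⟨e1, e2⟩, e3⟩ := hq
    exact ⟨e1, e2, Ideal.ne_bot_of_liesOver_of_ne_bot p.ne_bot q, e3⟩
  let T : D ≃ {x // idx (F := F) K x = (p, n)} :=
    { toFun := fun q => ⟨(⟨q.1, (hD q.1 q.2).1, (hD q.1 q.2).2.2.1⟩,
        ⟨n / q.1.inertiaDeg (𝓞 K), by
          have := (hD q.1 q.2).1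
          exact Nat.div_pos (Nat.le_of_dvd n.2 (hD q.1 q.2).2.2.2) (deg_pos q.1)⟩), by
          have h2 := (hD q.1 q.2).2.1
          refine Prod.ext ?_ ?_
          · apply HeightOneSpectrum.ext
            exact (Ideal.over_def q.1 p.asIdeal).symm
          · apply PNat.eq
            exact Nat.mul_div_cancel' (hD q.1 q.2).2.2.2⟩
      invFun := fun x => ⟨x.1.1.asIdeal, by
          have hx1 := congrArg (fun y => y.1.asIdeal) x.2
          have hx2 := congrArg (fun y => (y.2 : ℕ)) x.2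
          rw [Finset.mem_filter, Set.Finite.mem_toFinset]
          refine ⟨⟨x.1.1.isPrime, ⟨hx1.symm⟩⟩, ?_⟩
          exact ⟨x.1.2, hx2.symm⟩⟩
      left_inv := fun q => rfl
      right_inv := fun x => by
          apply Subtype.ext
          refine Prod.ext rfl ?_
          apply PNat.eq
          have hx2 : x.1.1.asIdeal.inertiaDeg (𝓞 K) * (x.1.2 : ℕ) = n :=
            congrArg (fun y => (y.2 : ℕ)) x.2
          have := x.1.1.isPrime
          change (n : ℕ) / x.1.1.asIdeal.inertiaDeg (𝓞 K) = x.1.2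
          rw [← hx2]
          exact Nat.mul_div_cancel_left _ (deg_pos _) }
  rw [← Equiv.hasSum_iff T]
  have h2 : wTerm w K L (indChar K F L χ) s (p, n)
      = ∑ q : D, ((fun c => (wTerm w F L χ s ∘ e) ⟨(p, n), c⟩) ∘ T) q := by
    have h3 := frobMean_ind (K := K) (F := F) (L := L) (χ := χ) p.ne_bot (n := (n : ℕ)) n.pos
    change w (absNorm p.asIdeal ^ (n : ℕ)) *
      (frobMean K L (indChar K F L χ) p.asIdeal (n : ℕ) / _) = _
    rw [h3, ← Finset.sum_filter]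
    change _ * ((∑ q ∈ D, _) / _) = _
    rw [Finset.sum_div, ← Finset.sum_coe_sort, Finset.mul_sum]
    refine Finset.sum_congr rfl fun q _ => ?_
    obtain ⟨q, hq⟩ := q
    obtain ⟨e1, e2, e3, e4⟩ := hD q hq
    change w (absNorm p.asIdeal ^ (n : ℕ)) *
      (((q.inertiaDeg (𝓞 K) : ℂ) * frobMean F L χ q ((n : ℕ) / q.inertiaDeg (𝓞 K)))
      / ((n : ℕ) * (absNorm p.asIdeal : ℂ) ^ (((n : ℕ) : ℂ) * s)))
      = w (absNorm q ^ ((n : ℕ) / q.inertiaDeg (𝓞 K))) *
        (frobMean F L χ q ((n : ℕ) / q.inertiaDeg (𝓞 K)) /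
          ((((n : ℕ) / q.inertiaDeg (𝓞 K) : ℕ) : ℂ) *
        (absNorm q : ℂ) ^ ((((n : ℕ) / q.inertiaDeg (𝓞 K) : ℕ) : ℂ) * s)))
    obtain ⟨m, hm⟩ := e4
    have hd0 : q.inertiaDeg (𝓞 K) ≠ 0 := (deg_pos q).ne'
    have hm' : (n : ℕ) / q.inertiaDeg (𝓞 K) = m := by
      rw [hm]; exact Nat.mul_div_cancel_left _ (deg_pos q)
    have hm0 : (m : ℂ) ≠ 0 := by
      intro h0
      have : m = 0 := by exact_mod_cast h0
      rw [this, mul_zero] at hm
      exact n.2.ne' hm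
    have hNm : absNorm q ^ m = absNorm p.asIdeal ^ (q.inertiaDeg (𝓞 K) * m) := by
      rw [← Ideal.absNorm_pow_inertiaDeg p.asIdeal q, pow_mul]
    rw [hm', hm, hNm]
    congr 1
    have h3 : (absNorm q : ℂ) ^ ((m : ℂ) * s)
        = (absNorm p.asIdeal : ℂ) ^ (((q.inertiaDeg (𝓞 K) * m : ℕ) : ℂ) * s) := by
      rw [← Ideal.absNorm_pow_inertiaDeg p.asIdeal q]
      push_cast
      rw [mul_assoc, Complex.natCast_cpow_natCast_mul]
    rw [h3]
    push_cast
    have hd1 : (q.inertiaDeg (𝓞 K) : ℂ) ≠ 0 := by exact_mod_cast hd0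
    rw [mul_assoc, mul_div_mul_left _ _ hd1]
  rw [h2]
  exact hasSum_fintype _

end ind

section inv

variable (w : ℕ → ℂ) {b : ℝ} (hw : Bdd w b) {s : ℂ} (hs : 1 + b < s.re)

/-- the logarithm of the Artin L-function with the weights `w` is an inductive invariant -/
noncomputable def LInv : ArtinInvariant (Multiplicative ℂ) where
  val K L _ _ _ _ _ _ χ := Multiplicative.ofAdd (∑' x, wTerm w K L χ s x)
  val_add K L _ _ _ _ _ _ χ χ' _ _ := by
    rw [← ofAdd_add, ← (wTerm_summable hw χ hs).tsum_add (wTerm_summable hw χ' hs)]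
    congr 1
    exact tsum_congr fun x => wTerm_add χ χ' s x
  val_infl K L N _ _ _ _ _ _ _ _ _ _ _ _ χ h := by
    rw [wTerm_infl h]
  val_ind K F L _ _ _ _ _ _ _ _ _ _ _ _ χ _ := by
    congr 1
    exact (hasSum_wind (K := K) (wTerm_summable hw χ hs).hasSum).tsum_eq

lemma LInv_val (K L : Type) [Field K] [NumberField K] [Field L] [NumberField L] [Algebra K L]
    [IsGalois K L] (χ : (L ≃ₐ[K] L) → ℂ) :
    (LInv w hw hs).val K L χ = Multiplicative.ofAdd (∑' x, wTerm w K L χ s x) := rfl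

end inv

end Pool.Agent.K9h41.DC
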