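import Mathlib
import Pool.Agent.K9h41.DC.Df
import Pool.Agent.K9h41.DC.Tw

/-!
# The Euler product and its logarithm
-/

set_option autoImplicit false
set_option linter.unusedSectionVars false

namespace Pool.Agent.K9h41.DC

open NumberField Ideal IsDedekindDomain Pool.Agent.K4H74.SC Polynomial

section ms

lemma ms_norm (R : Multiset ℂ) (f : ℂ → ℂ) {c : ℝ} (h : ∀ α ∈ R, ‖f α‖ ≤ c) :
    ‖(R.map f).sum‖ ≤ Multiset.card R * c := by
  induction R using Multiset.induction_on with
  | empty => simp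
  | cons a R ih =>
    rw [Multiset.map_cons, Multiset.sum_cons, Multiset.card_cons]
    have h1 := h a (Multiset.mem_cons_self a R)
    have h2 := ih fun α hα => h α (Multiset.mem_cons_of_mem hα)
    push_cast
    linarith [norm_add_le (f a) (R.map f).sum]

lemma ms_hasSum (R : Multiset ℂ) (z : ℂ → ℂ) (hz : ∀ α ∈ R, ‖z α‖ < 1) :
    HasSum (fun n : ℕ+ => (R.map fun α => z α ^ (n : ℕ)).sum / ((n : ℕ) : ℂ))
      ((R.map fun α => -Complex.log (1 - z α)).sum) := by
  induction R using Multiset.induction_on with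
  | empty => simp
  | cons a R ih =>
    simp only [Multiset.map_cons, Multiset.sum_cons]
    have h1 := Complex.hasSum_taylorSeries_neg_log (hz a (Multiset.mem_cons_self a R))
    have h2 := ih fun α hα => hz α (Multiset.mem_cons_of_mem hα)
    have h3 : HasSum (fun n : ℕ+ => z a ^ (n : ℕ) / ((n : ℕ) : ℂ)) (-Complex.log (1 - z a)) := by
      refine (PNat.coe_injective.hasSum_iff (f := fun n : ℕ => z a ^ n / (n : ℂ)) ?_).mpr h1
      intro x hx
      have hx0 : x = 0 := by
        by_contra h0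
        exact hx ⟨⟨x, Nat.pos_of_ne_zero h0⟩, rfl⟩
      rw [hx0]
      simp
    have h4 := h3.add h2
    convert h4 using 2 with n
    rw [add_div]

end ms

section wt

variable {E : Type} [Field E] (D : MotiveData E) (ι : E →+* ℂ)

open Classical in
/-- the traces of the powers of the Frobenius -/
noncomputable def wt (q : ℕ) : ℂ :=
  if IsPrimePow q ∧ q.minFac ∉ D.bad then
    (((D.frob q.minFac).map ι).roots.map fun α => α ^ q.factorization q.minFac).sum
  else 0

lemma roots_norm {p : ℕ} (hp : p.Prime) (hb : p ∉ D.bad) {α : ℂ}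
    (hα : α ∈ ((D.frob p).map ι).roots) : ‖α‖ = (p : ℝ) ^ ((D.w : ℝ) / 2) :=
  D.pure p hp hb ι α (Polynomial.isRoot_of_mem_roots hα)

lemma pow_norm {p : ℕ} (hp : p.Prime) (hb : p ∉ D.bad) {α : ℂ}
    (hα : α ∈ ((D.frob p).map ι).roots) (k : ℕ) :
    ‖α ^ k‖ = ((p ^ k : ℕ) : ℝ) ^ ((D.w : ℝ) / 2) := by
  rw [norm_pow, roots_norm D ι hp hb hα]
  push_cast
  rw [← Real.rpow_natCast, ← Real.rpow_mul (Nat.cast_nonneg p), mul_comm,
    Real.rpow_mul (Nat.cast_nonneg p), Real.rpow_natCast]

lemma wt_bdd : Bdd (wt D ι) ((D.w : ℝ) / 2) := by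
  refine ⟨(2 * D.n : ℕ), fun q hq => ?_⟩
  have hq0 : (0 : ℝ) ≤ (q : ℝ) ^ ((D.w : ℝ) / 2) := Real.rpow_nonneg (Nat.cast_nonneg q) _
  by_cases h : IsPrimePow q ∧ q.minFac ∉ D.bad
  · rw [wt, if_pos h]
    have hp : q.minFac.Prime := Nat.minFac_prime (by omega)
    have h1 : q.minFac ^ q.factorization q.minFac = q := h.1.minFac_pow_factorization_eq
    refine (ms_norm _ _ (c := (q : ℝ) ^ ((D.w : ℝ) / 2)) fun α hα => ?_).trans ?_
    · rw [pow_norm D ι hp h.2 hα, h1]
    · refine mul_le_mul_of_nonneg_right ?_ hq0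
      have h2 := Polynomial.card_roots' ((D.frob q.minFac).map ι)
      rw [Polynomial.natDegree_map, (D.monic _ hp h.2).2] at h2
      exact_mod_cast h2
  · rw [wt, if_neg h, norm_zero]
    exact mul_nonneg (Nat.cast_nonneg _) hq0

end wt

section loc

variable {E : Type} [Field E] (D : MotiveData E) (ι : E →+* ℂ) {k : Type} [Field k] [NumberField k]

lemma absNorm_primePow (v : HeightOneSpectrum (𝓞 k)) : IsPrimePow (absNorm v.asIdeal) := by
  classical
  have h1 : v.asIdeal.IsMaximal := v.isPrime.isMaximal v.ne_bot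
  have h2 : Finite (𝓞 k ⧸ v.asIdeal) := Ideal.finiteQuotientOfFreeOfNeBot _ v.ne_bot
  let := Ideal.Quotient.field v.asIdeal
  let := Fintype.ofFinite (𝓞 k ⧸ v.asIdeal)
  rw [Ideal.absNorm_apply, Submodule.cardQuot_apply]
  have h3 := Fintype.isPrimePow_card_of_field (α := 𝓞 k ⧸ v.asIdeal)
  rwa [← Nat.card_eq_fintype_card] at h3

lemma frobMean_one (v : HeightOneSpectrum (𝓞 k)) (n : ℕ) :
    frobMean k k (fun _ => 1) v.asIdeal n = 1 := by
  classical
  have : Fintype (k ≃ₐ[k] k) := Fintype.ofFinite _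
  have := v.isPrime
  have h1 : ((frobSet k k v.asIdeal n).ncard : ℂ)
      = ∑ᶠ x ∈ frobSet k k v.asIdeal n, (fun _ : k ≃ₐ[k] k => (1 : ℂ)) x.2 := by
    rw [frobSet_eq v.ne_bot n, finsum_mem_coe_finset, Finset.sum_const, nsmul_eq_mul, mul_one,
      Set.ncard_coe_finset]
  rw [frobMean, ← h1, div_self]
  rw [ncard_frob v.ne_bot n]
  exact_mod_cast mul_ne_zero pr_ne ram_ne

lemma wTerm_one (w : ℕ → ℂ) (v : HeightOneSpectrum (𝓞 k)) (n : ℕ+) (s : ℂ) :
    wTerm w k k (fun _ => 1) s (v, n) = w (absNorm v.asIdeal ^ (n : ℕ)) *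
      (1 / ((n : ℕ) * (absNorm v.asIdeal : ℂ) ^ (((n : ℕ) : ℂ) * s))) := by
  rw [wTerm, logTerm, frobMean_one]

/-- the local factor -/
theorem hasSum_local (v : HeightOneSpectrum (𝓞 k)) {s : ℂ} (hs : (D.w : ℝ) / 2 < s.re) :
    ∃ l : ℂ, HasSum (fun n : ℕ+ => wTerm (wt D ι) k k (fun _ => 1) s (v, n)) l ∧
      Complex.exp l = eulerFactor D ι k v s := by
  set N := absNorm v.asIdeal with hN
  have hN2 : 2 ≤ N := two_le_absNorm v
  have hNp : IsPrimePow N := absNorm_primePow v
  have hp : N.minFac.Prime := Nat.minFac_prime (by omega)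
  have hNf : N.minFac ^ N.factorization N.minFac = N := hNp.minFac_pow_factorization_eq
  have hN0 : (0 : ℝ) < N := by exact_mod_cast (by omega : 0 < N)
  have hNC : (N : ℂ) ≠ 0 := by exact_mod_cast (by omega : N ≠ 0)
  by_cases hb : N.minFac ∈ D.bad
  · refine ⟨0, ?_, ?_⟩
    · convert hasSum_zero using 2 with n
      rw [wTerm_one, wt, if_neg, zero_mul]
      rintro ⟨-, h⟩
      rw [← hN, Nat.pow_minFac n.ne_zero] at h
      exact h hb
    · rw [Complex.exp_zero, eulerFactor, if_pos hb]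
  · let R : Multiset ℂ := ((D.frob N.minFac).map ι).roots
    let z : ℂ → ℂ := fun α => α ^ N.factorization N.minFac * (N : ℂ) ^ (-s)
    have hz : ∀ α ∈ R, ‖z α‖ < 1 := by
      intro α hα
      have h1 : ‖z α‖ = (N : ℝ) ^ ((D.w : ℝ) / 2 - s.re) := by
        rw [norm_mul, pow_norm D ι hp hb hα, hNf,
          Complex.norm_natCast_cpow_of_pos (by omega), Complex.neg_re, Real.rpow_sub hN0,
          Real.rpow_neg hN0.le]
        rfl
      rw [h1]
      exact Real.rpow_lt_one_of_one_lt_of_neg (by exact_mod_cast (by omega : 1 < N))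
        (by linarith)
    refine ⟨(R.map fun α => -Complex.log (1 - z α)).sum, ?_, ?_⟩
    · have h1 := ms_hasSum R z hz
      convert h1 using 2 with n
      have hq : IsPrimePow (N ^ (n : ℕ)) := hNp.pow n.ne_zero
      rw [wTerm_one, wt, if_pos (by rw [← hN, Nat.pow_minFac n.ne_zero]; exact ⟨hq, hb⟩), ← hN,
        Nat.pow_minFac n.ne_zero, Nat.factorization_pow]
      have h2 : ∀ α, z α ^ (n : ℕ) = α ^ (((n : ℕ) • N.factorization) N.minFac) *
          ((N : ℂ) ^ (((n : ℕ) : ℂ) * s))⁻¹ := by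
        intro α
        rw [mul_pow, ← pow_mul, Finsupp.smul_apply, smul_eq_mul, mul_comm (n : ℕ),
          Complex.cpow_neg, inv_pow, Complex.cpow_nat_mul]
      simp only [h2]
      rw [Multiset.sum_map_mul_right]
      change _ = (R.map _).sum * _ / _
      rw [mul_div_assoc]
      congr 1
      rw [one_div, mul_inv, div_eq_mul_inv, mul_comm]
    · rw [Complex.exp_multiset_sum, Multiset.map_map, eulerFactor, if_neg hb,
        ← Multiset.prod_map_inv]
      congr 1
      refine Multiset.map_congr rfl fun α hα => ?_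
      have h3 : 1 - z α ≠ 0 := by
        intro h0
        have h4 := hz α hα
        have h5 : z α = 1 := (sub_eq_zero.mp h0).symm
        rw [h5, norm_one] at h4
        exact lt_irrefl _ h4
      change Complex.exp (-Complex.log (1 - z α)) = _
      rw [Complex.exp_neg, Complex.exp_log h3]

/-- the logarithm of the L-function -/
noncomputable def lg (k : Type) [Field k] [NumberField k] (s : ℂ) : ℂ :=
  ∑' x, wTerm (wt D ι) k k (fun _ => 1) s x

/-- **the Euler product** -/
theorem hasProd_euler {s : ℂ} (hs : 1 + (D.w : ℝ) / 2 < s.re) :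
    HasProd (fun v => eulerFactor D ι k v s) (Complex.exp (lg D ι k s)) := by
  have h1 : Summable (wTerm (wt D ι) k k (fun _ => 1) s) := wTerm_summable (wt_bdd D ι) _ hs
  choose l hl hl' using fun v : HeightOneSpectrum (𝓞 k) =>
    hasSum_local D ι v (s := s) (by linarith)
  have h2 := (HasSum.prod_fiberwise h1.hasSum hl).cexp
  have h3 : (fun v => eulerFactor D ι k v s) = Complex.exp ∘ l := by
    funext v
    exact (hl' v).symm
  rw [h3, lg]
  exact h2

end loc

end Pool.Agent.K9h41.DC
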