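import Mathlib
import Pool.Agent.K9h41.DC.Em
import Pool.Agent.K4H74.ST.Inv
import Pool.Agent.K4H74.ST.Chr

/-!
# Inductive invariants of the trivial characters of the fixed fields
-/

set_option autoImplicit false
set_option linter.unusedSectionVars false

namespace Pool.Agent.K9h41.DC

open NumberField NumberField.InfinitePlace IntermediateField Pool.Agent.R389
  Pool.Agent.K4H74.ST Pool.Agent.K4H74.SC

lemma isChar_one (G : Type) [Group G] : IsChar (fun _ : G => (1 : ℂ)) := by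
  have h := Pool.Agent.K4H74.ST.IsChar.lc (1 : G →* ℂˣ)
  have h1 : (Pool.Agent.K4H74.ST.lc (1 : G →* ℂˣ)) = fun _ : G => (1 : ℂ) := by
    funext g
    rfl
  rwa [h1] at h

section zsmul

variable {M : Type} [CommGroup M] (A : ArtinInvariant M)
  {K L : Type} [Field K] [NumberField K] [Field L] [NumberField L] [Algebra K L] [IsGalois K L]

lemma val_zsmul {f : (L ≃ₐ[K] L) → ℂ} {v : M} (h : Val A K L f v) (n : ℤ) :
    Val A K L (fun g => (n : ℂ) * f g) (v ^ n) := by
  have h0 : ∀ n : ℕ, Val A K L (fun g => (n : ℂ) * f g) (v ^ n) := by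
    intro n
    induction n with
    | zero =>
      have h1 : (fun g => ((0 : ℕ) : ℂ) * f g) = 0 := by
        funext g
        simp
      rw [h1, pow_zero]
      exact Val.zero A
    | succ n ih =>
      have h1 := ih.add A h
      have h2 : (fun g => ((n + 1 : ℕ) : ℂ) * f g) = (fun g => (n : ℂ) * f g) + f := by
        funext g
        rw [Pi.add_apply]
        push_cast
        ring
      rw [h2, pow_succ]
      exact h1
  obtain ⟨k, rfl | rfl⟩ := n.eq_nat_or_neg
  · rw [zpow_natCast]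
    exact h0 k
  · have h1 := (h0 k).neg A
    have h2 : (fun g => ((-(k : ℤ) : ℤ) : ℂ) * f g) = -(fun g => (k : ℂ) * f g) := by
      funext g
      rw [Pi.neg_apply]
      push_cast
      ring
    rw [h2, zpow_neg, zpow_natCast]
    exact h1

lemma val_sum {ι : Type} (s : Finset ι) {f : ι → (L ≃ₐ[K] L) → ℂ} {v : ι → M}
    (h : ∀ i ∈ s, Val A K L (f i) (v i)) :
    Val A K L (fun g => ∑ i ∈ s, f i g) (∏ i ∈ s, v i) := by
  classical
  induction s using Finset.induction_on with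
  | empty =>
    have h1 : (fun g => ∑ i ∈ (∅ : Finset ι), f i g) = 0 := by
      funext g
      simp
    rw [h1, Finset.prod_empty]
    exact Val.zero A
  | insert a s ha ih =>
    have h1 := (h a (Finset.mem_insert_self a s)).add A
      (ih fun i hi => h i (Finset.mem_insert_of_mem hi))
    rw [Finset.prod_insert ha]
    have h2 : (fun g => ∑ i ∈ insert a s, f i g) = f a + fun g => ∑ i ∈ s, f i g := by
      funext g
      rw [Pi.add_apply, Finset.sum_insert ha]
    rw [h2]
    exact h1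

/-- inductive invariants of the permutation characters -/
lemma val_fixed (V : Subgroup (L ≃ₐ[K] L)) : A.val K L (ind V (fun _ => 1))
    = A.val (fixedField V) (fixedField V) (fun _ => 1) := by
  rw [ind_fixed, A.val_ind K (fixedField V) L _ (isChar_one _),
    ← A.val_infl (fixedField V) (fixedField V) L (fun _ => 1) (isChar_one _)]

end zsmul

variable {K : Type} [Field K] [NumberField K] [IsGalois ℚ K]

/-- `k` has the same invariants as the fixed field of `V` -/
structure Match (φ : K →ₐ[ℚ] ℂ) (V : Subgroup (K ≃ₐ[ℚ] K)) (k : Type) [Field k] [NumberField k] :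
    Prop where
  /-- the inductive invariants of the trivial character -/
  val : ∀ (M : Type) [CommGroup M] (A : ArtinInvariant M),
    A.val ℚ K (ind V (fun _ => 1)) = A.val k k (fun _ => 1)
  /-- the degree -/
  deg : fx V 1 = Module.finrank ℚ k
  /-- the real places -/
  real : ∀ g : K ≃ₐ[ℚ] K, (∀ x, φ (g x) = star (φ x)) → fx V g = nrRealPlaces k
  /-- the discriminant -/
  disc : ∃ d : K, (φ d) ^ 2 = (discr k : ℂ) ∧ ∀ g : K ≃ₐ[ℚ] K, φ (g d) = sg V g * φ d

lemma match_fixed (φ : K →ₐ[ℚ] ℂ) (V : Subgroup (K ≃ₐ[ℚ] K)) : Match φ V (fixedField V) where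
  val M _ A := val_fixed A V
  deg := fx_one V
  real g hg := fx_real φ V g hg
  disc := exists_disc φ V

lemma ind_top : ind (⊤ : Subgroup (K ≃ₐ[ℚ] K)) (fun _ => (1 : ℂ)) = fun _ => 1 := by
  classical
  have : Fintype (K ≃ₐ[ℚ] K) := Fintype.ofFinite _
  funext g
  rw [ind_eq]
  have h1 : ∀ x : K ≃ₐ[ℚ] K, ext (⊤ : Subgroup (K ≃ₐ[ℚ] K)) (fun _ => (1 : ℂ)) (x⁻¹ * g * x) = 1 :=
    fun x => ext_mem _ _ (Subgroup.mem_top _)
  rw [Finset.sum_congr rfl (fun x _ => h1 x)]
  have h2 : Nat.card (⊤ : Subgroup (K ≃ₐ[ℚ] K)) = Fintype.card (K ≃ₐ[ℚ] K) := by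
    rw [← Nat.card_eq_fintype_card]
    exact Nat.card_congr Subgroup.topEquiv.toEquiv
  rw [h2, Finset.sum_const, Finset.card_univ, nsmul_eq_mul, mul_one]
  exact inv_mul_cancel₀ (by exact_mod_cast Fintype.card_pos.ne')

lemma fx_top (g : K ≃ₐ[ℚ] K) : fx (⊤ : Subgroup (K ≃ₐ[ℚ] K)) g = 1 := by
  have h := congrFun (ind_top (K := K)) g
  rw [ind_one] at h
  exact_mod_cast h

lemma match_rat (φ : K →ₐ[ℚ] ℂ) : Match φ (⊤ : Subgroup (K ≃ₐ[ℚ] K)) ℚ where
  val M _ A := by
    rw [ind_top, ← A.val_infl ℚ ℚ K (fun _ => 1) (isChar_one _)]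
  deg := by rw [fx_top, Module.finrank_self]
  real g _ := by
    rw [fx_top]
    have h1 := card_add_two_mul_card_eq_rank ℚ
    rw [Module.finrank_self] at h1
    omega
  disc := by
    classical
    refine ⟨1, ?_, fun g => ?_⟩
    · rw [map_one, Rat.numberField_discr]
      simp
    · rw [map_one, map_one, mul_one, sg]
      have : Subsingleton ((K ≃ₐ[ℚ] K) ⧸ (⊤ : Subgroup (K ≃ₐ[ℚ] K))) :=
        QuotientGroup.subsingleton_quotient_top
      rw [Subsingleton.elim (MulAction.toPermHom (K ≃ₐ[ℚ] K)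
        ((K ≃ₐ[ℚ] K) ⧸ (⊤ : Subgroup (K ≃ₐ[ℚ] K))) g) 1]
      simp

/-- **the relations between the inductive invariants** -/
lemma match_prod {φ : K →ₐ[ℚ] ℂ} {V : Subgroup (K ≃ₐ[ℚ] K)} {k : Type} [Field k] [NumberField k]
    (hk : Match φ V k) [Fintype (Subgroup (K ≃ₐ[ℚ] K))] {c : Subgroup (K ≃ₐ[ℚ] K) → ℤ}
    (hc : ∀ g : K ≃ₐ[ℚ] K, ∑ U, (c U : ℂ) * ind U (fun _ => (1 : ℂ)) g
      = ind V (fun _ => (1 : ℂ)) g) {M : Type} [CommGroup M] (A : ArtinInvariant M) :
    ∏ U, A.val (fixedField U) (fixedField U) (fun _ => 1) ^ c U = A.val k k (fun _ => 1) := by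
  rw [← hk.val M A]
  have h1 : ∀ U : Subgroup (K ≃ₐ[ℚ] K), IsChar (ind U (fun _ => (1 : ℂ))) := fun U =>
    Pool.Agent.K4H74.SC.isChar_ind U (isChar_one U)
  have h2 := val_sum A (Finset.univ : Finset (Subgroup (K ≃ₐ[ℚ] K)))
    (f := fun U g => (c U : ℂ) * ind U (fun _ => (1 : ℂ)) g)
    (v := fun U => A.val (fixedField U) (fixedField U) (fun _ => 1) ^ c U)
    (fun U _ => val_zsmul A (by
      rw [← (match_fixed φ U).val M A]
      exact Val.of_char A (h1 U)) (c U))
  have h3 : (fun g => ∑ U, (c U : ℂ) * ind U (fun _ => (1 : ℂ)) g)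
      = ind V (fun _ => (1 : ℂ)) := funext hc
  rw [h3] at h2
  exact h2.unique A (Val.of_char A (h1 V))

end Pool.Agent.K9h41.DC
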