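import Mathlib
import Pool.Agent.K9h41.DC.Eu
import Pool.Agent.K9h41.DC.Mt

/-!
# Deligne's conjecture and relations between permutation characters
-/

set_option autoImplicit false
set_option linter.unusedSectionVars false

namespace Pool.Agent.K9h41.DC

open NumberField NumberField.InfinitePlace IntermediateField IsDedekindDomain Filter Topology
  Pool.Agent.R389 Pool.Agent.K4H74.ST Pool.Agent.K4H74.SC

lemma prod_zpow {ι : Type} (s : Finset ι) {a : ℂ} (ha : a ≠ 0) (t : ι → ℤ) :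
    ∏ i ∈ s, a ^ t i = a ^ ∑ i ∈ s, t i := by
  classical
  induction s using Finset.induction_on with
  | empty => simp
  | insert x s hx ih => rw [Finset.prod_insert hx, Finset.sum_insert hx, ih, zpow_add₀ ha]

lemma prod_zpow_nat {ι : Type} (s : Finset ι) {a : ℂ} (ha : a ≠ 0) (t : ι → ℕ) (c : ι → ℤ) {r : ℕ}
    (h : ∑ i ∈ s, c i * (t i : ℤ) = r) : ∏ i ∈ s, (a ^ t i) ^ c i = a ^ r := by
  rw [← zpow_natCast, ← h, ← prod_zpow s ha]
  refine Finset.prod_congr rfl fun i _ => ?_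
  rw [← zpow_natCast, ← zpow_mul, mul_comm]

variable {K : Type} [Field K] [NumberField K] [IsGalois ℚ K]

/-- **the product of the square roots of the discriminants** -/
theorem disc_rel {φ : K →ₐ[ℚ] ℂ} {V : Subgroup (K ≃ₐ[ℚ] K)} {k : Type} [Field k] [NumberField k]
    (hk : Match φ V k) [Fintype (Subgroup (K ≃ₐ[ℚ] K))] {c : Subgroup (K ≃ₐ[ℚ] K) → ℤ}
    (hc : ∀ g : K ≃ₐ[ℚ] K, ∏ U, sg U g ^ c U = sg V g) {δ : Subgroup (K ≃ₐ[ℚ] K) → ℂ}
    (hδ : ∀ U, c U ≠ 0 → δ U ^ 2 = (discr (fixedField U) : ℂ)) :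
    ∃ (q : ℚ) (δ' : ℂ), q ≠ 0 ∧ δ' ^ 2 = (discr k : ℂ) ∧ ∏ U, δ U ^ c U = q * δ' := by
  choose d hd hd' using fun U => exists_disc φ U
  obtain ⟨e, he, he'⟩ := hk.disc
  have hd0 : ∀ U, φ (d U) ≠ 0 := by
    intro U h0
    have h1 := hd U
    rw [h0, zero_pow two_ne_zero] at h1
    exact discr_ne_zero (fixedField U) (by exact_mod_cast h1.symm)
  have he0 : φ e ≠ 0 := by
    intro h0
    rw [h0, zero_pow two_ne_zero] at he
    exact discr_ne_zero k (by exact_mod_cast he.symm)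
  have h1 : (∏ U, d U ^ c U) / e ∈ (⊥ : IntermediateField ℚ K) := by
    rw [IsGalois.mem_bot_iff_fixed]
    intro g
    apply φ.injective
    have h2 : φ (g (∏ U, d U ^ c U)) = sg V g * φ (∏ U, d U ^ c U) := by
      rw [map_prod g, map_prod φ, map_prod φ, ← hc g, ← Finset.prod_mul_distrib]
      refine Finset.prod_congr rfl fun U _ => ?_
      rw [map_zpow₀, map_zpow₀, map_zpow₀, hd', mul_zpow]
    change φ (g ((∏ U, d U ^ c U) / e)) = φ ((∏ U, d U ^ c U) / e)
    rw [map_div₀ g, map_div₀ φ, map_div₀ φ, he', h2]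
    exact mul_div_mul_left _ _ (sg_ne V g)
  obtain ⟨q, hq⟩ := IntermediateField.mem_bot.mp h1
  have h2 : ∏ U, φ (d U) ^ c U = q * φ e := by
    have h3 := congrArg φ hq
    rw [AlgHom.commutes, map_div₀ φ, map_prod φ, eq_div_iff he0] at h3
    simp only [map_zpow₀] at h3
    rw [← h3]
    simp
  have hq0 : q ≠ 0 := by
    rintro rfl
    rw [Rat.cast_zero, zero_mul] at h2
    exact Finset.prod_ne_zero_iff.mpr (fun U _ => zpow_ne_zero _ (hd0 U)) h2
  have h3 : (∏ U, δ U ^ c U) ^ 2 = (q * φ e) ^ 2 := by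
    rw [← h2, ← Finset.prod_pow, ← Finset.prod_pow]
    refine Finset.prod_congr rfl fun U _ => ?_
    by_cases hU : c U = 0
    · rw [hU, zpow_zero, zpow_zero]
    · rw [← zpow_natCast, ← zpow_natCast, ← zpow_mul, ← zpow_mul, mul_comm (c U), zpow_mul,
        zpow_mul, zpow_natCast, zpow_natCast, hδ U hU, hd U]
  rcases sq_eq_sq_iff_eq_or_eq_neg.mp h3 with h4 | h4
  · exact ⟨q, φ e, hq0, he, h4⟩
  · exact ⟨q, -φ e, hq0, by rw [neg_sq, he], by rw [h4, mul_neg]⟩

variable {E : Type} [Field E] [CharZero E] (D : MotiveData E)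

lemma period_ne (ι : E →+* ℂ) (m : ℤ) : D.period ι m ≠ 0 := by
  rw [MotiveData.period]
  split_ifs
  · exact D.Iplus_det ι
  · exact D.Iminus_det ι

/-- the relation between the logarithms of the L-functions -/
lemma lg_rel {φ : K →ₐ[ℚ] ℂ} {V : Subgroup (K ≃ₐ[ℚ] K)} {k : Type} [Field k] [NumberField k]
    (hk : Match φ V k) [Fintype (Subgroup (K ≃ₐ[ℚ] K))] {c : Subgroup (K ≃ₐ[ℚ] K) → ℤ}
    (hc : ∀ g : K ≃ₐ[ℚ] K, ∑ U, (c U : ℂ) * ind U (fun _ => (1 : ℂ)) g
      = ind V (fun _ => (1 : ℂ)) g) (ι : E →+* ℂ) {s : ℂ} (hs : 1 + (D.w : ℝ) / 2 < s.re) :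
    ∑ U, c U * lg D ι (fixedField U) s = lg D ι k s := by
  have h := match_prod hk hc (LInv (wt D ι) (wt_bdd D ι) hs)
  simp only [LInv_val] at h
  have h1 := congrArg Multiplicative.toAdd h
  rw [toAdd_prod] at h1
  simp only [toAdd_zpow, toAdd_ofAdd, zsmul_eq_mul] at h1
  exact h1

theorem assemble {φ : K →ₐ[ℚ] ℂ} {V : Subgroup (K ≃ₐ[ℚ] K)} {k : Type} [Field k] [NumberField k]
    (hk : Match φ V k) {m : ℤ}
    (h : ∀ U : Subgroup (K ≃ₐ[ℚ] K), Hyperelementary U →
      ∃ e : E, e ≠ 0 ∧ DeligneWith D (fixedField U) m e) :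
    ∃ e : E, e ≠ 0 ∧ DeligneWith D k m e := by
  classical
  have : Fintype (Subgroup (K ≃ₐ[ℚ] K)) := Fintype.ofFinite _
  obtain ⟨c, hc1, hc2, hc3, hc4⟩ := exists_coeff' V
  have h' : ∀ U : Subgroup (K ≃ₐ[ℚ] K), ∃ (e : E) (δ : ℂ), e ≠ 0 ∧ (c U ≠ 0 →
      δ ^ 2 = (discr (fixedField U) : ℂ) ∧ ∀ ι : E →+* ℂ, HasLValue D ι (fixedField U) m
        (ι e * ((2 * Real.pi * Complex.I) ^ (m * (D.n * Module.finrank ℚ (fixedField U) : ℕ)) *
      (D.period ι m ^ (nrRealPlaces (fixedField U) + nrComplexPlaces (fixedField U)) *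
        D.period ι (m + 1) ^ nrComplexPlaces (fixedField U) * δ ^ D.n)))) := by
    intro U
    by_cases hU : c U = 0
    · exact ⟨1, 1, one_ne_zero, fun h0 => absurd hU h0⟩
    · obtain ⟨e, he, δ, h1, h2⟩ := h U (hc1 U hU).1
      exact ⟨e, δ, he, fun _ => ⟨h1, h2⟩⟩
  choose e δ he hδ using h'
  obtain ⟨q, δ', hq0, hδ', hprod⟩ := disc_rel hk hc4 (fun U hU => (hδ U hU).1)
  -- the numerical relations
  have hdeg : ∑ U, c U * (Module.finrank ℚ (fixedField U) : ℤ) = Module.finrank ℚ k := by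
    rw [← hk.deg, ← hc3 1]
    exact Finset.sum_congr rfl fun U _ => by rw [(match_fixed φ U).deg]
  obtain ⟨g, hg⟩ := exists_cc φ
  have hreal : ∑ U, c U * (nrRealPlaces (fixedField U) : ℤ) = nrRealPlaces k := by
    rw [← hk.real g hg, ← hc3 g]
    exact Finset.sum_congr rfl fun U _ => by rw [(match_fixed φ U).real g hg]
  have hcomp : ∑ U, c U * (nrComplexPlaces (fixedField U) : ℤ) = nrComplexPlaces k := by
    have h1 : ∀ U : Subgroup (K ≃ₐ[ℚ] K), c U * (Module.finrank ℚ (fixedField U) : ℤ)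
        = c U * (nrRealPlaces (fixedField U) : ℤ)
          + 2 * (c U * (nrComplexPlaces (fixedField U) : ℤ)) := by
      intro U
      rw [← card_add_two_mul_card_eq_rank (fixedField U)]
      push_cast
      ring
    have h2 := hdeg
    rw [Finset.sum_congr rfl (fun U _ => h1 U), Finset.sum_add_distrib, hreal, ← Finset.mul_sum,
      ← card_add_two_mul_card_eq_rank k] at h2
    push_cast at h2
    omega
  have hrc : ∑ U, c U * ((nrRealPlaces (fixedField U) + nrComplexPlaces (fixedField U) : ℕ) : ℤ)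
      = ((nrRealPlaces k + nrComplexPlaces k : ℕ) : ℤ) := by
    push_cast
    simp only [mul_add]
    rw [Finset.sum_add_distrib, hreal, hcomp]
  refine ⟨(∏ U, e U ^ c U) * (q : E) ^ D.n, ?_, δ', hδ', fun ι => ?_⟩
  · refine mul_ne_zero (Finset.prod_ne_zero_iff.mpr fun U _ => zpow_ne_zero _ (he U))
      (pow_ne_zero _ (by exact_mod_cast hq0))
  · have h2 : ∀ U : Subgroup (K ≃ₐ[ℚ] K), ∃ f : ℂ → ℂ, c U ≠ 0 →
        (∀ s : ℂ, (m : ℝ) ≤ s.re → MeromorphicAt f s) ∧
        (∀ s : ℂ, 1 + (D.w : ℝ) / 2 < s.re →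
          HasProd (fun v => eulerFactor D ι (fixedField U) v s) (f s)) ∧
        Tendsto f (𝓝[≠] (m : ℂ)) (𝓝 (ι (e U) *
          ((2 * Real.pi * Complex.I) ^ (m * (D.n * Module.finrank ℚ (fixedField U) : ℕ)) *
      (D.period ι m ^ (nrRealPlaces (fixedField U) + nrComplexPlaces (fixedField U)) *
        D.period ι (m + 1) ^ nrComplexPlaces (fixedField U) * δ U ^ D.n)))) := by
      intro U
      by_cases hU : c U = 0
      · exact ⟨0, fun h0 => absurd hU h0⟩
      · obtain ⟨f, hf⟩ := (hδ U hU).2 ι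
        exact ⟨f, fun _ => hf⟩
    choose f hf using h2
    refine ⟨fun s => ∏ U, f U s ^ c U, fun s hs => ?_, fun s hs => ?_, ?_⟩
    · refine MeromorphicAt.fun_prod fun U _ => ?_
      by_cases hU : c U = 0
      · simp only [hU, zpow_zero]
        exact MeromorphicAt.const 1 s
      · exact ((hf U hU).1 s hs).fun_zpow _
    · have h3 : ∏ U, f U s ^ c U = Complex.exp (lg D ι k s) := by
        rw [← lg_rel D hk hc2 ι hs, Complex.exp_sum]
        refine Finset.prod_congr rfl fun U _ => ?_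
        by_cases hU : c U = 0
        · rw [hU]
          simp
        · rw [((hf U hU).2.1 s hs).unique (hasProd_euler D ι hs), ← Complex.exp_int_mul]
      change HasProd _ (∏ U, f U s ^ c U)
      rw [h3]
      exact hasProd_euler D ι hs
    · have h3 : (2 * Real.pi * Complex.I : ℂ) ≠ 0 := Complex.two_pi_I_ne_zero
      generalize (2 * Real.pi * Complex.I : ℂ) = T at hf h3 ⊢
      have hδ0 : ∀ U, c U ≠ 0 → δ U ≠ 0 := by
        intro U hU h0
        have h1 := (hδ U hU).1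
        rw [h0, zero_pow two_ne_zero] at h1
        exact discr_ne_zero (fixedField U) (by exact_mod_cast h1.symm)
      have h4 : Tendsto (fun s => ∏ U, f U s ^ c U) (𝓝[≠] (m : ℂ)) (𝓝 (∏ U, (ι (e U) *
          (T ^ (m * (D.n * Module.finrank ℚ (fixedField U) : ℕ)) *
      (D.period ι m ^ (nrRealPlaces (fixedField U) + nrComplexPlaces (fixedField U)) *
        D.period ι (m + 1) ^ nrComplexPlaces (fixedField U) * δ U ^ D.n))) ^ c U)) := by
        refine tendsto_finsetProd _ fun U _ => ?_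
        by_cases hU : c U = 0
        · simp only [hU, zpow_zero]
          exact tendsto_const_nhds
        · refine ((hf U hU).2.2).zpow₀ _ (Or.inl ?_)
          refine mul_ne_zero ?_ (mul_ne_zero (zpow_ne_zero _ h3) (mul_ne_zero (mul_ne_zero
            (pow_ne_zero _ (period_ne D ι m)) (pow_ne_zero _ (period_ne D ι (m + 1))))
            (pow_ne_zero _ (hδ0 U hU))))
          rw [map_ne_zero]
          exact he U
      convert h4 using 2
      simp only [mul_zpow]
      rw [Finset.prod_mul_distrib, Finset.prod_mul_distrib, Finset.prod_mul_distrib,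
        Finset.prod_mul_distrib, prod_zpow_nat _ (period_ne D ι m) _ _ hrc,
        prod_zpow_nat _ (period_ne D ι (m + 1)) _ _ hcomp]
      have h5 : ∏ U, (T ^ (m * (D.n * Module.finrank ℚ (fixedField U) : ℕ))) ^ c U
          = T ^ (m * (D.n * Module.finrank ℚ k : ℕ)) := by
        simp only [← zpow_mul]
        rw [prod_zpow _ h3]
        congr 1
        push_cast
        rw [← hdeg, Finset.mul_sum, Finset.mul_sum]
        exact Finset.sum_congr rfl fun U _ => by ring
      have h6 : ∏ U, (δ U ^ D.n) ^ c U = ((q : ℂ) * δ') ^ D.n := by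
        rw [← hprod, ← Finset.prod_pow]
        refine Finset.prod_congr rfl fun U _ => ?_
        rw [← zpow_natCast, ← zpow_natCast, ← zpow_mul, ← zpow_mul, mul_comm]
      rw [h5, h6, map_mul, map_prod, map_pow, map_ratCast, mul_pow]
      simp only [map_zpow₀]
      ring

end Pool.Agent.K9h41.DC
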