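import Mathlib
import Pool.Agent.K4H74.ST.Inv

/-!
# The trace on induced representations of an endomorphism of `ℂ` as an inductive invariant
-/

set_option autoImplicit false
set_option linter.unusedSectionVars false

namespace Pool.Agent.K9h41.DC

open NumberField Pool.Agent.K4H74.ST

/-- the trace of `θ` on the representation induced from `χ` -/
noncomputable def emTr (θ : ℂ →+* ℂ) (K L : Type) [Field K] [Field L] [Algebra K L]
    (χ : (L ≃ₐ[K] L) → ℂ) : ℂ :=
  (Nat.card (L ≃ₐ[K] L) : ℂ)⁻¹ *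
    ∑ᶠ (φ : L →+* ℂ) (g : L ≃ₐ[K] L) (_ : ∀ y, φ (g y) = θ (φ y)), χ g

variable (θ : ℂ →+* ℂ)

section basic

variable {K L : Type} [Field K] [NumberField K] [Field L] [NumberField L] [Algebra K L]

open Classical in
lemma emTr_eq [Fintype (L ≃ₐ[K] L)] (χ : (L ≃ₐ[K] L) → ℂ) :
    emTr θ K L χ = (Nat.card (L ≃ₐ[K] L) : ℂ)⁻¹ * ∑ φ : L →+* ℂ, ∑ g : L ≃ₐ[K] L,
      if ∀ y, φ (g y) = θ (φ y) then χ g else 0 := by
  rw [emTr, finsum_eq_sum_of_fintype]
  congr 1
  refine Finset.sum_congr rfl fun φ _ => ?_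
  rw [finsum_eq_sum_of_fintype]
  refine Finset.sum_congr rfl fun g _ => ?_
  split_ifs with h
  · exact finsum_eq_single _ h (fun h1 h2 => absurd rfl h2)
  · have : IsEmpty (∀ y, φ (g y) = θ (φ y)) := ⟨h⟩
    exact finsum_of_isEmpty _

lemma emTr_add (χ χ' : (L ≃ₐ[K] L) → ℂ) :
    emTr θ K L (χ + χ') = emTr θ K L χ + emTr θ K L χ' := by
  classical
  have : Fintype (L ≃ₐ[K] L) := Fintype.ofFinite _
  rw [emTr_eq, emTr_eq, emTr_eq, ← mul_add, ← Finset.sum_add_distrib]
  congr 1
  refine Finset.sum_congr rfl fun φ _ => ?_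
  rw [← Finset.sum_add_distrib]
  refine Finset.sum_congr rfl fun g _ => ?_
  split_ifs
  · rfl
  · rw [add_zero]

/-- composition with an automorphism -/
def compEquiv (x : L ≃ₐ[K] L) : (L →+* ℂ) ≃ (L →+* ℂ) where
  toFun φ := φ.comp (x : L →+* L)
  invFun φ := φ.comp (x.symm : L →+* L)
  left_inv φ := by
    ext y
    exact congrArg φ (x.apply_symm_apply y)
  right_inv φ := by
    ext y
    exact congrArg φ (x.symm_apply_apply y)

end basic

section ind

variable {K F L : Type} [Field K] [NumberField K] [Field F] [NumberField F] [Field L]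
  [NumberField L] [Algebra K F] [Algebra F L] [Algebra K L] [IsScalarTower K F L]

open Classical in
lemma indChar_sum [Fintype (L ≃ₐ[K] L)] [Fintype (L ≃ₐ[F] L)] (χ : (L ≃ₐ[F] L) → ℂ)
    (g : L ≃ₐ[K] L) : indChar K F L χ g = (Nat.card (L ≃ₐ[F] L) : ℂ)⁻¹ *
      ∑ x : L ≃ₐ[K] L, ∑ h : L ≃ₐ[F] L,
        if h.restrictScalars K = x⁻¹ * g * x then χ h else 0 := by
  rw [indChar, finsum_eq_sum_of_fintype]
  congr 1
  refine Finset.sum_congr rfl fun x _ => ?_
  rw [finsum_eq_sum_of_fintype]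
  refine Finset.sum_congr rfl fun h _ => ?_
  split_ifs with hh
  · exact finsum_eq_single _ hh (fun h1 h2 => absurd rfl h2)
  · have : IsEmpty (h.restrictScalars K = x⁻¹ * g * x) := ⟨hh⟩
    exact finsum_of_isEmpty _

theorem emTr_ind (χ : (L ≃ₐ[F] L) → ℂ) :
    emTr θ K L (indChar K F L χ) = emTr θ F L χ := by
  classical
  have : Fintype (L ≃ₐ[K] L) := Fintype.ofFinite _
  have : Fintype (L ≃ₐ[F] L) := Fintype.ofFinite _
  have hK : (Nat.card (L ≃ₐ[K] L) : ℂ) ≠ 0 := by exact_mod_cast Nat.card_pos.ne'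
  have h1 : ∀ (φ : L →+* ℂ) (x : L ≃ₐ[K] L) (h : L ≃ₐ[F] L),
      ∑ g : L ≃ₐ[K] L, (if ∀ y, φ (g y) = θ (φ y) then
        (if h.restrictScalars K = x⁻¹ * g * x then χ h else 0) else 0)
      = if ∀ y, (compEquiv x φ) (h y) = θ ((compEquiv x φ) y) then χ h else 0 := by
    intro φ x h
    rw [Finset.sum_eq_single (x * h.restrictScalars K * x⁻¹)]
    · have h2 : (∀ y, φ ((x * h.restrictScalars K * x⁻¹ : L ≃ₐ[K] L) y) = θ (φ y)) ↔
          ∀ y, (compEquiv x φ) (h y) = θ ((compEquiv x φ) y) := by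
        constructor
        · intro h3 y
          have h4 := h3 (x y)
          have h5 : (x * h.restrictScalars K * x⁻¹ : L ≃ₐ[K] L) (x y) = x (h y) := by
            change x (h (x⁻¹ (x y))) = _
            have h6 : x⁻¹ (x y) = y := x.symm_apply_apply y
            rw [h6]
          rw [h5] at h4
          exact h4
        · intro h3 y
          have h4 := h3 (x⁻¹ y)
          have h6 : x (x⁻¹ y) = y := x.apply_symm_apply y
          have h5 : (compEquiv x φ) (x⁻¹ y) = φ y := congrArg φ h6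
          rw [h5] at h4
          exact h4
      have h7 : x⁻¹ * (x * h.restrictScalars K * x⁻¹) * x = h.restrictScalars K := by group
      rw [h7]
      simp only [h2, if_true]
    · intro g _ hg
      split_ifs with h3 h4
      · exfalso
        apply hg
        rw [h4]
        group
      · rfl
      · rfl
    · intro h3
      exact absurd (Finset.mem_univ _) h3
  rw [emTr_eq, emTr_eq]
  have h2 : ∀ φ : L →+* ℂ, (∑ g : L ≃ₐ[K] L, if ∀ y, φ (g y) = θ (φ y) then
      indChar K F L χ g else 0) = (Nat.card (L ≃ₐ[F] L) : ℂ)⁻¹ * ∑ x : L ≃ₐ[K] L,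
        ∑ h : L ≃ₐ[F] L, if ∀ y, (compEquiv x φ) (h y) = θ ((compEquiv x φ) y) then χ h else 0 := by
    intro φ
    have h3 : ∀ g : L ≃ₐ[K] L, (if ∀ y, φ (g y) = θ (φ y) then indChar K F L χ g else 0)
        = (Nat.card (L ≃ₐ[F] L) : ℂ)⁻¹ * ∑ x : L ≃ₐ[K] L, ∑ h : L ≃ₐ[F] L,
          (if ∀ y, φ (g y) = θ (φ y) then
            (if h.restrictScalars K = x⁻¹ * g * x then χ h else 0) else 0) := by
      intro g
      rw [indChar_sum]
      split_ifs
      · rfl
      · simp
    rw [Finset.sum_congr rfl (fun g _ => h3 g), ← Finset.mul_sum, Finset.sum_comm]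
    congr 1
    refine Finset.sum_congr rfl fun x _ => ?_
    rw [Finset.sum_comm]
    exact Finset.sum_congr rfl fun h _ => h1 φ x h
  rw [Finset.sum_congr rfl (fun φ _ => h2 φ), ← Finset.mul_sum, Finset.sum_comm]
  have h3 : ∀ x : L ≃ₐ[K] L, (∑ φ : L →+* ℂ, ∑ h : L ≃ₐ[F] L,
      if ∀ y, (compEquiv x φ) (h y) = θ ((compEquiv x φ) y) then χ h else 0)
      = ∑ φ : L →+* ℂ, ∑ h : L ≃ₐ[F] L, if ∀ y, φ (h y) = θ (φ y) then χ h else 0 := by
    intro x
    exact Equiv.sum_comp (compEquiv x)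
      (fun φ => ∑ h : L ≃ₐ[F] L, if ∀ y, φ (h y) = θ (φ y) then χ h else 0)
  rw [Finset.sum_congr rfl (fun x _ => h3 x), Finset.sum_const, Finset.card_univ, nsmul_eq_mul,
    ← Nat.card_eq_fintype_card]
  field_simp

end ind

section infl

variable {K L N : Type} [Field K] [NumberField K] [Field L] [NumberField L] [Field N]
  [NumberField N] [Algebra K L] [Algebra L N] [Algebra K N] [IsScalarTower K L N] [IsGalois K L]
  [IsGalois K N]

/-- the number of extensions of an embedding -/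
lemma card_lifts (φ : L →+* ℂ) :
    Nat.card {Φ : N →+* ℂ // Φ.comp (algebraMap L N) = φ} = Module.finrank L N := by
  let _ : Algebra L ℂ := φ.toAlgebra
  have h1 := AlgHom.card L N ℂ
  rw [← Nat.card_eq_fintype_card] at h1
  rw [← h1]
  refine Nat.card_congr ⟨fun Φ => ⟨Φ.1, fun y => RingHom.congr_fun Φ.2 y⟩,
    fun Φ => ⟨Φ.toRingHom, RingHom.ext fun y => Φ.commutes y⟩, fun Φ => rfl, fun Φ => rfl⟩

open Classical in
lemma local_infl [Fintype (L ≃ₐ[K] L)] [Fintype (N ≃ₐ[K] N)] (χ : (L ≃ₐ[K] L) → ℂ)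
    (Φ : N →+* ℂ) :
    (∑ g : N ≃ₐ[K] N, if ∀ y, Φ (g y) = θ (Φ y) then χ (AlgEquiv.restrictNormalHom L g) else 0)
      = ∑ h : L ≃ₐ[K] L, if ∀ y, (Φ.comp (algebraMap L N)) (h y)
        = θ ((Φ.comp (algebraMap L N)) y) then χ h else 0 := by
  have hres : ∀ (g : N ≃ₐ[K] N) (y : L),
      algebraMap L N (AlgEquiv.restrictNormalHom L g y) = g (algebraMap L N y) := fun g y =>
    AlgEquiv.restrictNormal_commutes g L y
  by_cases h0 : ∃ g : N ≃ₐ[K] N, ∀ y, Φ (g y) = θ (Φ y)
  · obtain ⟨g, hg⟩ := h0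
    have hg' : ∀ y : L, (Φ.comp (algebraMap L N)) (AlgEquiv.restrictNormalHom L g y)
        = θ ((Φ.comp (algebraMap L N)) y) := by
      intro y
      rw [RingHom.comp_apply, RingHom.comp_apply, hres, hg]
    rw [Finset.sum_eq_single g, Finset.sum_eq_single (AlgEquiv.restrictNormalHom L g), if_pos hg,
      if_pos hg']
    · intro h _ hh
      rw [if_neg]
      intro h1
      apply hh
      ext y
      apply (Φ.comp (algebraMap L N)).injective
      rw [h1, hg']
    · intro h
      exact absurd (Finset.mem_univ _) h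
    · intro h _ hh
      rw [if_neg]
      intro h1
      apply hh
      ext y
      apply Φ.injective
      rw [h1, hg]
    · intro h
      exact absurd (Finset.mem_univ _) h
  · rw [Finset.sum_eq_zero, Finset.sum_eq_zero]
    · intro h _
      rw [if_neg]
      intro h1
      apply h0
      have h2 : Φ.comp (algebraMap K N) = (θ.comp Φ).comp (algebraMap K N) := by
        ext y
        have h3 := h1 (algebraMap K L y)
        rw [h.commutes, RingHom.comp_apply, ← IsScalarTower.algebraMap_apply] at h3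
        exact h3
      obtain ⟨τ, hτ⟩ := NumberField.ComplexEmbedding.exists_comp_symm_eq_of_comp_eq Φ
        (θ.comp Φ) h2
      exact ⟨τ.symm, fun y => RingHom.congr_fun hτ y⟩
    · intro g _
      rw [if_neg]
      exact fun h1 => h0 ⟨g, h1⟩

theorem emTr_infl (χ : (L ≃ₐ[K] L) → ℂ) :
    emTr θ K N (fun g => χ (AlgEquiv.restrictNormalHom L g)) = emTr θ K L χ := by
  classical
  have : Fintype (L ≃ₐ[K] L) := Fintype.ofFinite _
  have : Fintype (N ≃ₐ[K] N) := Fintype.ofFinite _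
  have : FiniteDimensional K L := Module.Finite.of_restrictScalars_finite ℚ K L
  have : FiniteDimensional K N := Module.Finite.of_restrictScalars_finite ℚ K N
  have : FiniteDimensional L N := Module.Finite.of_restrictScalars_finite ℚ L N
  have hL : (Nat.card (L ≃ₐ[K] L) : ℂ) ≠ 0 := by exact_mod_cast Nat.card_pos.ne'
  have hLN : (Module.finrank L N : ℂ) ≠ 0 := by exact_mod_cast Module.finrank_pos.ne'
  have hc : (Nat.card (N ≃ₐ[K] N) : ℂ) = Nat.card (L ≃ₐ[K] L) * Module.finrank L N := by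
    rw [IsGalois.card_aut_eq_finrank, IsGalois.card_aut_eq_finrank,
      ← Module.finrank_mul_finrank K L N]
    push_cast
    rfl
  rw [emTr_eq, emTr_eq, hc, Finset.sum_congr rfl (fun Φ _ => local_infl θ χ Φ)]
  let c : (L →+* ℂ) → ℂ := fun φ => ∑ h : L ≃ₐ[K] L, if ∀ y, φ (h y) = θ (φ y) then χ h else 0
  have h1 : ∑ Φ : N →+* ℂ, c (Φ.comp (algebraMap L N)) = Module.finrank L N * ∑ φ, c φ := by
    rw [← Finset.sum_fiberwise (g := fun Φ : N →+* ℂ => Φ.comp (algebraMap L N)), Finset.mul_sum]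
    refine Finset.sum_congr rfl fun φ _ => ?_
    have h2 : ∀ Φ ∈ Finset.univ.filter (fun Φ : N →+* ℂ => Φ.comp (algebraMap L N) = φ),
        c (Φ.comp (algebraMap L N)) = c φ := by
      intro Φ hΦ
      rw [(Finset.mem_filter.mp hΦ).2]
    rw [Finset.sum_congr rfl h2, Finset.sum_const, nsmul_eq_mul]
    congr 2
    rw [← card_lifts (N := N) φ, Nat.card_eq_fintype_card, Fintype.card_subtype]
  change _ * ∑ Φ : N →+* ℂ, c (Φ.comp (algebraMap L N)) = _ * ∑ φ, c φ
  rw [h1]
  field_simp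

end infl

/-- the trace of `θ` on the induced representation as an inductive invariant -/
noncomputable def emInv : ArtinInvariant (Multiplicative ℂ) where
  val K L _ _ _ _ _ _ χ := Multiplicative.ofAdd (emTr θ K L χ)
  val_add K L _ _ _ _ _ _ χ χ' _ _ := by rw [emTr_add, ofAdd_add]
  val_infl K L N _ _ _ _ _ _ _ _ _ _ _ _ χ _ := by rw [emTr_infl]
  val_ind K F L _ _ _ _ _ _ _ _ _ _ _ _ χ _ := by rw [emTr_ind]

end Pool.Agent.K9h41.DC
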