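import Mathlib
import Pool.Agent.K9h41.DC.Em2
import Pool.Agent.K4H34.AL.Comb2

/-!
# The multiplicities of the eigenvalues of complex conjugation
-/

set_option autoImplicit false
set_option linter.unusedSectionVars false

namespace Pool.Agent.K9h41.DC

open NumberField Pool.Agent.K4H74.ST

section inv

variable {G : Type} [Group G]

lemma isChar_class {χ : G → ℂ} (h : IsChar χ) (g x : G) : χ (x⁻¹ * g * x) = χ g := by
  obtain ⟨V, _, _, _, ρ, rfl⟩ := h
  change LinearMap.trace ℂ V (ρ (x⁻¹ * g * x)) = LinearMap.trace ℂ V (ρ g)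
  rw [map_mul ρ, LinearMap.trace_mul_comm, ← map_mul ρ, mul_inv_cancel_left]

/-- the multiplicities of the eigenvalues of an involution -/
lemma exists_mult {χ : G → ℂ} (h : IsChar χ) {c : G} (hc : c * c = 1) :
    ∃ a b : ℕ, (a : ℂ) + b = χ 1 ∧ (a : ℂ) - b = χ c := by
  obtain ⟨V, _, _, _, ρ, rfl⟩ := h
  have h1 : ρ c * ρ c = 1 := by rw [← map_mul, hc, map_one]
  have h2 : ∀ ε : ℂ, ε * ε = 1 → ∃ n : ℕ,
      LinearMap.trace ℂ V ((2 : ℂ)⁻¹ • (1 + ε • ρ c)) = n := by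
    intro ε hε
    have h3 : IsIdempotentElem ((2 : ℂ)⁻¹ • (1 + ε • ρ c)) := by
      unfold IsIdempotentElem
      rw [smul_mul_smul_comm, mul_add, add_mul, add_mul, mul_one, one_mul, mul_one,
        smul_mul_smul_comm, hε, h1, one_smul]
      have h4 : (1 : V →ₗ[ℂ] V) + ε • ρ c + (ε • ρ c + 1) = (2 : ℂ) • (1 + ε • ρ c) := by
        rw [two_smul]
        abel
      rw [h4, smul_smul]
      norm_num
    exact ⟨_, (LinearMap.IsIdempotentElem.isProj_range _ h3).trace⟩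
  obtain ⟨a, ha⟩ := h2 1 (one_mul 1)
  obtain ⟨b, hb⟩ := h2 (-1) (by norm_num)
  rw [map_smul, map_add, map_smul, smul_eq_mul, smul_eq_mul] at ha hb
  refine ⟨a, b, ?_, ?_⟩
  · change _ = LinearMap.trace ℂ V (ρ 1)
    rw [map_one, ← ha, ← hb]
    ring
  · change _ = LinearMap.trace ℂ V (ρ c)
    rw [← ha, ← hb]
    ring

end inv

section rat

variable {N : Type} [Field N] [NumberField N] [IsGalois ℚ N] (θ : ℂ →+* ℂ)

lemma exists_act (Φ : N →+* ℂ) : ∃ g : N ≃ₐ[ℚ] N, ∀ y, Φ (g y) = θ (Φ y) := by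
  obtain ⟨τ, hτ⟩ := NumberField.ComplexEmbedding.exists_comp_symm_eq_of_comp_eq (k := ℚ) Φ
    (θ.comp Φ) (RingHom.ext fun q => by simp)
  exact ⟨τ.symm, fun y => RingHom.congr_fun hτ y⟩

lemma emTr_rat {χ : (N ≃ₐ[ℚ] N) → ℂ} (hχ : IsChar χ) {Φ₀ : N →+* ℂ} {c : N ≃ₐ[ℚ] N}
    (hc : ∀ y, Φ₀ (c y) = θ (Φ₀ y)) : emTr θ ℚ N χ = χ c := by
  classical
  have : Fintype (N ≃ₐ[ℚ] N) := Fintype.ofFinite _
  rw [emTr_eq]
  have h1 : ∀ Φ : N →+* ℂ, (∑ g : N ≃ₐ[ℚ] N, if ∀ y, Φ (g y) = θ (Φ y) then χ g else 0) = χ c := by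
    intro Φ
    obtain ⟨τ, hτ⟩ := NumberField.ComplexEmbedding.exists_comp_symm_eq_of_comp_eq (k := ℚ) Φ₀
      Φ (RingHom.ext fun q => by simp)
    have hΦ : ∀ y, Φ y = Φ₀ (τ.symm y) := fun y => (RingHom.congr_fun hτ y).symm
    rw [Finset.sum_eq_single (τ.symm⁻¹ * c * τ.symm)]
    · rw [if_pos, isChar_class hχ]
      intro y
      rw [hΦ, hΦ]
      have h2 : τ.symm ((τ.symm⁻¹ * c * τ.symm) y) = c (τ.symm y) :=
        τ.symm.apply_symm_apply (c (τ.symm y))
      rw [h2, hc]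
    · intro g _ hg
      rw [if_neg]
      intro h3
      apply hg
      ext y
      apply Φ.injective
      rw [h3, hΦ, hΦ]
      have h2 : τ.symm ((τ.symm⁻¹ * c * τ.symm) y) = c (τ.symm y) :=
        τ.symm.apply_symm_apply (c (τ.symm y))
      rw [h2, hc]
    · intro h
      exact absurd (Finset.mem_univ _) h
  rw [Finset.sum_congr rfl (fun Φ _ => h1 Φ), Finset.sum_const, Finset.card_univ, nsmul_eq_mul,
    NumberField.Embeddings.card, ← IsGalois.card_aut_eq_finrank ℚ N]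
  have h2 : (Nat.card (N ≃ₐ[ℚ] N) : ℂ) ≠ 0 := by exact_mod_cast Nat.card_pos.ne'
  field_simp

end rat

section gen

variable {K L : Type} [Field K] [NumberField K] [Field L] [NumberField L] [Algebra K L]
  [IsGalois K L]

/-- the degree of the induced representation -/
lemma emTr_id (χ : (L ≃ₐ[K] L) → ℂ) :
    emTr (RingHom.id ℂ) K L χ = Module.finrank ℚ K * χ 1 := by
  classical
  have : Fintype (L ≃ₐ[K] L) := Fintype.ofFinite _
  have : FiniteDimensional K L := Module.Finite.of_restrictScalars_finite ℚ K L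
  rw [emTr_eq]
  have h1 : ∀ φ : L →+* ℂ, (∑ g : L ≃ₐ[K] L, if ∀ y, φ (g y) = RingHom.id ℂ (φ y) then χ g
      else 0) = χ 1 := by
    intro φ
    rw [Finset.sum_eq_single 1]
    · rw [if_pos]
      exact fun y => rfl
    · intro g _ hg
      rw [if_neg]
      intro h3
      apply hg
      ext y
      apply φ.injective
      exact h3 y
    · intro h
      exact absurd (Finset.mem_univ _) h
  rw [Finset.sum_congr rfl (fun Φ _ => h1 Φ), Finset.sum_const, Finset.card_univ, nsmul_eq_mul,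
    NumberField.Embeddings.card, ← Module.finrank_mul_finrank ℚ K L,
    ← IsGalois.card_aut_eq_finrank K L]
  have h2 : (Nat.card (L ≃ₐ[K] L) : ℂ) ≠ 0 := by exact_mod_cast Nat.card_pos.ne'
  push_cast
  field_simp

/-- the multiplicities of the eigenvalues of complex conjugation on the induced representation -/
theorem exists_sig {χ : (L ≃ₐ[K] L) → ℂ} (hχ : IsChar χ) :
    ∃ a b : ℕ, (a : ℂ) + b = emTr (RingHom.id ℂ) K L χ ∧
      (a : ℂ) - b = emTr (starRingEnd ℂ) K L χ := by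
  obtain ⟨N, i1, i2, i3, i4⟩ := Pool.Agent.K4H34.ST.exists_gal L
  let _ : Algebra K N := ((algebraMap L N).comp (algebraMap K L)).toAlgebra
  have htow : IsScalarTower K L N := IsScalarTower.of_algebraMap_eq fun x => rfl
  have htow2 : IsScalarTower ℚ K N := inferInstance
  have hgal : IsGalois K N := IsGalois.tower_top_of_isGalois ℚ K N
  have h8 : IsChar (fun g : N ≃ₐ[K] N => χ (AlgEquiv.restrictNormalHom L g)) :=
    Pool.Agent.K4H77.SL.IsChar.comp hχ _
  have h9 := Pool.Agent.K4H74.SC.isChar_indChar (K := ℚ) h8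
  let Φ₀ : N →+* ℂ := (IsAlgClosed.lift : N →ₐ[ℚ] ℂ).toRingHom
  obtain ⟨c, hc⟩ := exists_act (starRingEnd ℂ) Φ₀
  have hcc : c * c = 1 := by
    ext y
    apply Φ₀.injective
    change Φ₀ (c (c y)) = Φ₀ y
    rw [hc, hc]
    exact star_star _
  have h10 : ∀ θ : ℂ →+* ℂ, emTr θ K L χ = emTr θ ℚ N
      (indChar ℚ K N (fun g : N ≃ₐ[K] N => χ (AlgEquiv.restrictNormalHom L g))) := by
    intro θ
    rw [emTr_ind, emTr_infl]
  obtain ⟨a, b, h1, h2⟩ := exists_mult h9 hcc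
  refine ⟨a, b, ?_, ?_⟩
  · rw [h10, emTr_rat (RingHom.id ℂ) h9 (Φ₀ := Φ₀) (c := 1) (fun y => rfl)]
    exact h1
  · rw [h10, emTr_rat (starRingEnd ℂ) h9 hc]
    exact h2

end gen

end Pool.Agent.K9h41.DC
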