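import Mathlib
import Pool.Agent.K9h41.DC.Sg

/-!
# Determinants on induced representations as inductive invariants
-/

set_option autoImplicit false
set_option linter.unusedSectionVars false

namespace Pool.Agent.K9h41.DC

open NumberField Pool.Agent.K4H74.ST Pool.Agent.K4H74.SC

/-- the values at conjugate characters -/
noncomputable def sigInv {M : Type} [CommGroup M] (A : ArtinInvariant M) (σ : ℂ →+* ℂ) :
    ArtinInvariant M where
  val K L _ _ _ _ _ _ χ := A.val K L (fun g => σ (χ g))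
  val_add K L _ _ _ _ _ _ χ χ' h h' := by
    have h1 : (fun g => σ ((χ + χ') g)) = (fun g => σ (χ g)) + fun g => σ (χ' g) := by
      funext g
      exact map_add σ _ _
    rw [h1]
    exact A.val_add _ _ _ _ (isChar_sigma h σ) (isChar_sigma h' σ)
  val_infl K L N _ _ _ _ _ _ _ _ _ _ _ _ χ h :=
    A.val_infl K L N (fun g => σ (χ g)) (isChar_sigma h σ)
  val_ind K F L _ _ _ _ _ _ _ _ _ _ _ _ χ h := by
    have h1 : (fun g => σ (indChar K F L χ g)) = indChar K F L (fun h => σ (χ h)) := by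
      funext g
      exact indChar_sigma σ χ g
    rw [h1]
    exact A.val_ind K F L _ (isChar_sigma h σ)

section det

variable (σ : RingAut ℂ)

/-- the determinant of `σ` on the induced representation -/
def DetI (K L : Type) [Field K] [Field L] [Algebra K L] (χ : (L ≃ₐ[K] L) → ℂ) (r : ℂ) : Prop :=
  DetOf (fun k => emTr ((σ ^ k : RingAut ℂ) : ℂ →+* ℂ) K L χ) r

section ex

variable {K L : Type} [Field K] [NumberField K] [Field L] [NumberField L] [Algebra K L]
  [IsGalois K L]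

lemma detI_exists {χ : (L ≃ₐ[K] L) → ℂ} (hχ : IsChar χ) : ∃ r : ℂ, r ≠ 0 ∧ DetI σ K L χ r := by
  obtain ⟨N, i1, i2, i3, i4⟩ := Pool.Agent.K4H34.ST.exists_gal L
  let _ : Algebra K N := ((algebraMap L N).comp (algebraMap K L)).toAlgebra
  have htow : IsScalarTower K L N := IsScalarTower.of_algebraMap_eq fun x => rfl
  have htow2 : IsScalarTower ℚ K N := inferInstance
  have hgal : IsGalois K N := IsGalois.tower_top_of_isGalois ℚ K N
  have h8 : IsChar (fun g : N ≃ₐ[K] N => χ (AlgEquiv.restrictNormalHom L g)) :=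
    Pool.Agent.K4H77.SL.IsChar.comp hχ _
  have h9 := Pool.Agent.K4H74.SC.isChar_indChar (K := ℚ) h8
  let Φ₀ : N →+* ℂ := (IsAlgClosed.lift : N →ₐ[ℚ] ℂ).toRingHom
  obtain ⟨c, hc⟩ := exists_act (σ : ℂ →+* ℂ) Φ₀
  have hck : ∀ (k : ℕ) (y : N), Φ₀ ((c ^ k) y) = ((σ ^ k : RingAut ℂ) : ℂ →+* ℂ) (Φ₀ y) := by
    intro k
    induction k with
    | zero => exact fun y => rfl
    | succ k ih =>
      intro y
      rw [pow_succ', pow_succ']
      change Φ₀ (c ((c ^ k) y)) = σ ((σ ^ k) (Φ₀ y))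
      rw [hc, ih]
      rfl
  have h10 : ∀ θ : ℂ →+* ℂ, emTr θ K L χ = emTr θ ℚ N
      (indChar ℚ K N (fun g : N ≃ₐ[K] N => χ (AlgEquiv.restrictNormalHom L g))) := by
    intro θ
    rw [emTr_ind, emTr_infl]
  have h11 : ∀ k : ℕ, emTr ((σ ^ k : RingAut ℂ) : ℂ →+* ℂ) K L χ
      = (indChar ℚ K N (fun g : N ≃ₐ[K] N => χ (AlgEquiv.restrictNormalHom L g))) (c ^ k) := by
    intro k
    rw [h10]
    exact emTr_rat _ h9 (hck k)
  obtain ⟨V, j1, j2, j3, ρ, hρ⟩ := h9
  refine ⟨LinearMap.det (ρ c), ?_, V, j1, j2, j3, ρ c, fun k => ?_, rfl⟩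
  · have h12 : LinearMap.det (ρ c) * LinearMap.det (ρ c⁻¹) = 1 := by
      rw [← map_mul, ← map_mul, mul_inv_cancel, map_one, map_one]
    exact left_ne_zero_of_mul_eq_one h12
  · change LinearMap.trace ℂ V (ρ c ^ k) = emTr ((σ ^ k : RingAut ℂ) : ℂ →+* ℂ) K L χ
    rw [h11, hρ, ← map_pow]
    rfl

end ex

open Classical in
/-- the determinant of `σ` on the induced representation as an inductive invariant -/
noncomputable def detVal (K L : Type) [Field K] [Field L] [Algebra K L]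
    (χ : (L ≃ₐ[K] L) → ℂ) : ℂˣ :=
  if h : ∃ r : ℂ, r ≠ 0 ∧ DetI σ K L χ r then Units.mk0 h.choose h.choose_spec.1 else 1

lemma detVal_eq {K L : Type} [Field K] [Field L] [Algebra K L] {χ : (L ≃ₐ[K] L) → ℂ} {r : ℂ}
    (hr : r ≠ 0) (h : DetI σ K L χ r) : (detVal σ K L χ : ℂ) = r := by
  have h1 : ∃ r : ℂ, r ≠ 0 ∧ DetI σ K L χ r := ⟨r, hr, h⟩
  rw [detVal, dif_pos h1, Units.val_mk0]
  exact DetOf.unique h h1.choose_spec.2

lemma detVal_spec {K L : Type} [Field K] [NumberField K] [Field L] [NumberField L] [Algebra K L]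
    [IsGalois K L] {χ : (L ≃ₐ[K] L) → ℂ} (hχ : IsChar χ) :
    DetI σ K L χ (detVal σ K L χ : ℂ) := by
  obtain ⟨r, hr, h⟩ := detI_exists σ hχ
  rwa [detVal_eq σ hr h]

/-- the determinant of `σ` on the induced representation as an inductive invariant -/
noncomputable def detInv : ArtinInvariant ℂˣ where
  val K L _ _ _ _ _ _ χ := detVal σ K L χ
  val_add K L _ _ _ _ _ _ χ χ' h h' := by
    apply Units.ext
    rw [Units.val_mul]
    refine DetOf.add (detVal_spec σ (h.add h')) (detVal_spec σ h) (detVal_spec σ h') fun k => ?_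
    exact emTr_add _ _ _
  val_infl K L N _ _ _ _ _ _ _ _ _ _ _ _ χ h := by
    have h8 : IsChar (fun g : N ≃ₐ[K] N => χ (AlgEquiv.restrictNormalHom L g)) :=
      Pool.Agent.K4H77.SL.IsChar.comp h _
    apply Units.ext
    have h1 := detVal_spec σ h8
    have h2 : DetI σ K L χ (detVal σ K N (fun g => χ (AlgEquiv.restrictNormalHom L g)) : ℂ) := by
      have h3 : (fun k : ℕ => emTr ((σ ^ k : RingAut ℂ) : ℂ →+* ℂ) K N
          (fun g : N ≃ₐ[K] N => χ (AlgEquiv.restrictNormalHom L g)))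
          = fun k : ℕ => emTr ((σ ^ k : RingAut ℂ) : ℂ →+* ℂ) K L χ := by
        funext k
        exact emTr_infl _ χ
      unfold DetI at h1 ⊢
      rwa [h3] at h1
    exact (detVal_eq σ (Units.ne_zero _) h2).symm
  val_ind K F L _ _ _ _ _ _ _ _ _ _ _ _ χ h := by
    apply Units.ext
    have h1 := detVal_spec σ (Pool.Agent.K4H74.SC.isChar_indChar (K := K) h)
    have h2 : DetI σ F L χ (detVal σ K L (indChar K F L χ) : ℂ) := by
      have h3 : (fun k : ℕ => emTr ((σ ^ k : RingAut ℂ) : ℂ →+* ℂ) K L (indChar K F L χ))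
          = fun k : ℕ => emTr ((σ ^ k : RingAut ℂ) : ℂ →+* ℂ) F L χ := by
        funext k
        exact emTr_ind _ χ
      unfold DetI at h1 ⊢
      rwa [h3] at h1
    exact (detVal_eq σ (Units.ne_zero _) h2).symm

end det

end Pool.Agent.K9h41.DC
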