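import Mathlib
import Pool.Agent.K9h41.DC.Df

/-!
# Deligne's conjecture for the twists by Artin characters: the definitions
-/

set_option autoImplicit false

namespace Pool.Agent.K9h41.DC.Tw

open NumberField NumberField.InfinitePlace Polynomial Filter Topology IsDedekindDomain

/-- `χ` is the character of a finite-dimensional complex representation of `G`. -/
def IsCharacter {G : Type} [Group G] (χ : G → ℂ) : Prop :=
  ∃ (V : Type) (_ : AddCommGroup V) (_ : Module ℂ V) (_ : FiniteDimensional ℂ V)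
    (ρ : Representation ℂ G V), χ = ρ.character

section galois

variable (K L : Type) [Field K] [NumberField K] [Field L] [NumberField L] [Algebra K L]

/-- The pairs `(P, g)`, where `P` is a prime of `L` over the prime `p` of `K`, and `g` induces
`x ↦ x ^ (N(p)^n)` modulo `P`. -/
def frobPairs (p : Ideal (𝓞 K)) (n : ℕ) : Set (Ideal (𝓞 L) × (L ≃ₐ[K] L)) :=
  {x | x.1.IsPrime ∧ x.1.LiesOver p ∧ ∀ y : 𝓞 L, x.2 • y - y ^ (Ideal.absNorm p ^ n) ∈ x.1}

/-- `χ(p^n)`: the mean of `χ` over the elements `g` of the Galois group of `L / K` which induce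
`x ↦ x ^ (N(p)^n)` modulo a prime of `L` over `p`. -/
noncomputable def meanFrob (χ : (L ≃ₐ[K] L) → ℂ) (p : Ideal (𝓞 K)) (n : ℕ) : ℂ :=
  (∑ᶠ x ∈ frobPairs K L p n, χ x.2) / (frobPairs K L p n).ncard

/-- The trace of the ring endomorphism `θ` of `ℂ` (an automorphism, or the complex conjugation) on
the representation of the Galois group of `ℚ` which is induced from a representation of `Gal(L / K)`
with the character `χ`. -/
noncomputable def inducedTrace (θ : ℂ →+* ℂ) (χ : (L ≃ₐ[K] L) → ℂ) : ℂ :=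
  (Nat.card (L ≃ₐ[K] L) : ℂ)⁻¹ *
    ∑ᶠ (φ : L →+* ℂ) (g : L ≃ₐ[K] L) (_ : ∀ y, φ (g y) = θ (φ y)), χ g

/-- `a` and `b` are the multiplicities of the eigenvalues `1` and `-1` of complex conjugation on the
induced representation. -/
def IsSignature (χ : (L ≃ₐ[K] L) → ℂ) (a b : ℕ) : Prop :=
  (a : ℂ) + b = Module.finrank ℚ K * χ 1 ∧ (a : ℂ) - b = inducedTrace K L (starRingEnd ℂ) χ

/-- `r` is the determinant of the automorphism `σ` of `ℂ` on the induced representation: the
determinant of a matrix whose powers have the same traces as the powers of `σ`. -/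
def IsInducedDet (σ : RingAut ℂ) (χ : (L ≃ₐ[K] L) → ℂ) (r : ℂ) : Prop :=
  ∃ (d : ℕ) (A : Matrix (Fin d) (Fin d) ℂ),
    (∀ k : ℕ, (A ^ k).trace = inducedTrace K L ((σ ^ k : RingAut ℂ) : ℂ →+* ℂ) χ) ∧ r = A.det

/-- `L / K` is unramified at all finite primes (the inertia groups are trivial), and the primes above
`m₀` split completely (their decomposition groups are trivial). -/
def UnramifiedSplit (m₀ : ℕ) : Prop :=
  ∀ P : Ideal (𝓞 L), P.IsMaximal →
    (∀ g : L ≃ₐ[K] L, (∀ y : 𝓞 L, g • y - y ∈ P) → g = 1) ∧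
    ((m₀ : 𝓞 L) ∈ P → ∀ g : L ≃ₐ[K] L, (∀ y : 𝓞 L, g • y ∈ P ↔ y ∈ P) → g = 1)

variable {K L} in
/-- The linear character `ψ` takes the value `-1` at all complex conjugations. -/
def TotallyOdd (ψ : (L ≃ₐ[K] L) →* ℂˣ) : Prop :=
  ∀ (φ : L →+* ℂ) (t : L ≃ₐ[K] L), (∀ y, φ (t y) = star (φ y)) → ψ t = -1

end galois

section twist

variable {E : Type} [Field E] (D : MotiveData E) (ι : E →+* ℂ)

open Classical in
/-- The trace of the `f`-th power of the geometric Frobenius at `p` on `M` at the embedding `ι` of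
`E`, for `q = p ^ f` with a prime number `p` which is not in the finite set `bad`; it is `0` for all
the other numbers `q`. -/
noncomputable def frobTrace (q : ℕ) : ℂ :=
  if IsPrimePow q ∧ q.minFac ∉ D.bad then
    (((D.frob q.minFac).map ι).roots.map fun α => α ^ q.factorization q.minFac).sum
  else 0

variable (K L : Type) [Field K] [NumberField K] [Field L] [NumberField L] [Algebra K L]

/-- The term `Tr(Frob_p^n | M) χ(p^n) / (n N(p)^(n s))` of the logarithm of the L-function of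
`M_K ⊗ χ` at `ι`, for a prime `p` of `K` and `n ≥ 1`. -/
noncomputable def twistTerm (χ : (L ≃ₐ[K] L) → ℂ) (s : ℂ) (x : HeightOneSpectrum (𝓞 K) × ℕ+) : ℂ :=
  frobTrace D ι (Ideal.absNorm x.1.asIdeal ^ (x.2 : ℕ)) * (meanFrob K L χ x.1.asIdeal x.2 /
    ((x.2 : ℕ) * (Ideal.absNorm x.1.asIdeal : ℂ) ^ (((x.2 : ℕ) : ℂ) * s)))

/-- `f` is the L-function of `M_K ⊗ χ` at the embedding `ι` of `E`, the exponential of the sum of
the terms for `Re s > 1 + w/2`, meromorphic on a neighbourhood of the half plane `Re s ≥ m`. -/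
def IsTwistL (χ : (L ≃ₐ[K] L) → ℂ) (m : ℤ) (f : ℂ → ℂ) : Prop :=
  (∀ s : ℂ, (m : ℝ) ≤ s.re → MeromorphicAt f s) ∧
    ∀ s : ℂ, 1 + (D.w : ℝ) / 2 < s.re →
      ∃ l : ℂ, HasSum (twistTerm D ι K L χ s) l ∧ f s = Complex.exp l

/-- The L-function of `M_K ⊗ χ` has such a continuation, with the value `z` at `m`. -/
def HasTwistValue (χ : (L ≃ₐ[K] L) → ℂ) (m : ℤ) (z : ℂ) : Prop :=
  ∃ f : ℂ → ℂ, IsTwistL D ι K L χ m f ∧ Tendsto f (𝓝[≠] (m : ℂ)) (𝓝 z)

/-- `(2 π i)^(m n (a + b)) c^ε(M)^a c^(-ε)(M)^b` at the embedding `ι`, with the sign `ε` of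
`(-1)^m`. -/
noncomputable def twistPeriod (m : ℤ) (a b : ℕ) : ℂ :=
  (2 * Real.pi * Complex.I) ^ (m * (D.n * (a + b) : ℕ)) *
    (D.period ι m ^ a * D.period ι (m + 1) ^ b)

/-- **Deligne's conjecture at `m` for `M_K ⊗ χ`, up to roots of unity with an order all whose prime
factors are in `S`**, together with the nonvanishing of the value. Let `(a, b)` be the signature of
`χ`. For all embeddings `ι` of `E` and all automorphisms `σ` of `ℂ`, let `y` be the value at `m` of
the L-function of `M_K ⊗ χ` at `ι` divided by `(2 π i)^(m n (a + b)) c^ε(M)^a c^(-ε)(M)^b` at `ι`, and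
let `y'` be the same for `σ ∘ χ` and `σ ∘ ι`, and let `r` be the determinant of `σ` on the
representation induced from `σ ∘ χ`. Then `σ(y) r^n = ζ y'` for a root of unity `ζ` as above. (For
`S = ∅`, so `ζ = 1`, this is Deligne's conjecture for `M_K ⊗ χ`.) -/
def DeligneTwist (S : Set ℕ) (χ : (L ≃ₐ[K] L) → ℂ) (m : ℤ) : Prop :=
  ∀ (ι : E →+* ℂ) (σ : RingAut ℂ), ∃ (a b : ℕ) (y y' r ζ : ℂ), IsSignature K L χ a b ∧ y ≠ 0 ∧
    HasTwistValue D ι K L χ m (y * twistPeriod D ι m a b) ∧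
    HasTwistValue D ((σ : ℂ →+* ℂ).comp ι) K L (fun g => σ (χ g)) m
      (y' * twistPeriod D ((σ : ℂ →+* ℂ).comp ι) m a b) ∧
    IsInducedDet K L σ (fun g => σ (χ g)) r ∧ σ y * r ^ D.n = ζ * y' ∧
    ∃ N : ℕ, 0 < N ∧ ζ ^ N = 1 ∧ ∀ p : ℕ, p.Prime → p ∣ N → p ∈ S

end twist

end Pool.Agent.K9h41.DC.Tw
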