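import Mathlib
import Pool.Agent.K9h41.DC.Du
import Pool.Agent.K9h41.DC.Di
import Pool.Agent.K9h41.DC.As
import Pool.Agent.K4H34.AL.Comb2

/-!
# Deligne's conjecture for the twists by Artin characters: the main theorem
-/

set_option autoImplicit false
set_option linter.unusedSectionVars false

namespace Pool.Agent.K9h41.DC.Tw

open NumberField Filter Topology IsDedekindDomain Pool.Agent.K4H74.ST Pool.Agent.K4H74.SC
  Pool.Agent.K4H34.AL

section mero

/-- values of roots -/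
lemma exists_value {m : ℤ} {B : ℝ} {f F : ℂ → ℂ} (hf : ∀ s : ℂ, (m : ℝ) ≤ s.re → MeromorphicAt f s)
    (hF : ∀ s : ℂ, (m : ℝ) ≤ s.re → MeromorphicAt F s) {n : ℕ} (hn : 0 < n)
    (h : ∀ s : ℂ, B < s.re → f s ^ n = F s) {c : ℂ} (hc : c ≠ 0)
    (ht : Tendsto F (𝓝[≠] (m : ℂ)) (𝓝 c)) :
    ∃ z : ℂ, z ^ n = c ∧ Tendsto f (𝓝[≠] (m : ℂ)) (𝓝 z) := by
  let U : Set ℂ := {s | (m : ℝ) ≤ s.re}
  have hU : IsPreconnected U := (convex_halfSpace_re_ge (m : ℝ)).isPreconnected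
  have hmU : (m : ℂ) ∈ U := by
    change (m : ℝ) ≤ ((m : ℂ)).re
    simp
  have hh : MeromorphicOn (fun s => f s ^ n - F s) U := fun s hs =>
    ((hf s hs).fun_pow n).fun_sub (hF s hs)
  let s₁ : ℂ := ((max (m : ℝ) B + 1 : ℝ) : ℂ)
  have hs₁ : s₁ ∈ U := by
    change (m : ℝ) ≤ s₁.re
    rw [Complex.ofReal_re]
    linarith [le_max_left (m : ℝ) B]
  have h1 : meromorphicOrderAt (fun s => f s ^ n - F s) s₁ = ⊤ := by
    rw [meromorphicOrderAt_eq_top_iff]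
    have h2 : {s : ℂ | B < s.re} ∈ 𝓝 s₁ := by
      refine (isOpen_lt continuous_const Complex.continuous_re).mem_nhds ?_
      change B < s₁.re
      rw [Complex.ofReal_re]
      linarith [le_max_right (m : ℝ) B]
    filter_upwards [nhdsWithin_le_nhds h2] with s hs
    rw [h s hs, sub_self]
  have h2 : meromorphicOrderAt (fun s => f s ^ n - F s) (m : ℂ) = ⊤ := by
    by_contra h3
    exact hh.meromorphicOrderAt_ne_top_of_isPreconnected hU hmU hs₁ h3 h1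
  rw [meromorphicOrderAt_eq_top_iff] at h2
  have h3 : Tendsto (fun s => f s ^ n) (𝓝[≠] (m : ℂ)) (𝓝 c) := by
    refine ht.congr' ?_
    filter_upwards [h2] with s hs
    exact (sub_eq_zero.mp hs).symm
  have hfm := hf (m : ℂ) hmU
  have h4 : meromorphicOrderAt (fun s => f s ^ n) (m : ℂ) = 0 :=
    (tendsto_ne_zero_iff_meromorphicOrderAt_eq_zero (hfm.fun_pow n)).mp ⟨c, hc, h3⟩
  have h5 : meromorphicOrderAt f (m : ℂ) = 0 := by
    have h6 : meromorphicOrderAt (f ^ n) (m : ℂ) = 0 := h4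
    rw [meromorphicOrderAt_pow hfm] at h6
    rcases mul_eq_zero.mp h6 with h7 | h7
    · exact absurd (by exact_mod_cast h7) hn.ne'
    · exact h7
  obtain ⟨z, hz, h6⟩ := (tendsto_ne_zero_iff_meromorphicOrderAt_eq_zero hfm).mpr h5
  exact ⟨z, tendsto_nhds_unique (h6.pow n) h3, h6⟩

end mero

section single

variable {K L : Type} [Field K] [NumberField K] [Field L] [NumberField L] [Algebra K L]

lemma isInducedDet_iff {σ : RingAut ℂ} {χ : (L ≃ₐ[K] L) → ℂ} {r : ℂ} :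
    IsInducedDet K L σ χ r ↔ DetI σ K L χ r := by
  constructor
  · rintro ⟨d, A, hA, rfl⟩
    refine ⟨Fin d → ℂ, inferInstance, inferInstance, inferInstance, Matrix.toLin' A, fun k => ?_,
      (LinearMap.det_toLin' A).symm⟩
    rw [← Matrix.toLin'_pow, Matrix.trace_toLin'_eq, hA]
    rfl
  · rintro ⟨V, j1, j2, j3, T, hT, rfl⟩
    let b := Module.finBasis ℂ V
    refine ⟨Module.finrank ℂ V, LinearMap.toMatrix b b T, fun k => ?_, ?_⟩
    · rw [LinearMap.toMatrix_pow, ← LinearMap.trace_eq_matrix_trace, hT]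
      rfl
    · rw [LinearMap.det_toMatrix]

lemma detVal_of {σ : RingAut ℂ} {χ : (L ≃ₐ[K] L) → ℂ} {r : ℂ} (hr : r ≠ 0)
    (h : IsInducedDet K L σ χ r) : (detVal σ K L χ : ℂ) = r :=
  detVal_eq σ hr (isInducedDet_iff.mp h)

lemma isInducedDet_ne [IsGalois K L] {σ : RingAut ℂ} {χ : (L ≃ₐ[K] L) → ℂ} (hχ : IsChar χ) {r : ℂ}
    (h : IsInducedDet K L σ χ r) : r ≠ 0 := by
  have h1 := detVal_spec σ (K := K) (L := L) hχ
  rw [DetOf.unique h1 (isInducedDet_iff.mp h)]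
  exact Units.ne_zero _

variable {E : Type} [Field E] (D : MotiveData E) (ι : E →+* ℂ)

lemma twistTerm_eq (χ : (L ≃ₐ[K] L) → ℂ) (s : ℂ) :
    twistTerm D ι K L χ s = wTerm (wt D ι) K L χ s := rfl

/-- the logarithm of the twisted L-function -/
noncomputable def lgT (K L : Type) [Field K] [NumberField K] [Field L] [NumberField L]
    [Algebra K L] (χ : (L ≃ₐ[K] L) → ℂ) (s : ℂ) : ℂ := ∑' p, wTerm (wt D ι) K L χ s p

lemma lgT_eq {χ : (L ≃ₐ[K] L) → ℂ} {s l : ℂ} (h : HasSum (twistTerm D ι K L χ s) l) :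
    lgT D ι K L χ s = l := by
  rw [twistTerm_eq] at h
  exact h.tsum_eq

end single

section values

variable {E : Type} [Field E] (D : MotiveData E) (ι : E →+* ℂ)

/-- the values of the L-function of a product -/
theorem twist_value {m : ℤ} {K L : Type} [Field K] [NumberField K] [Field L] [NumberField L]
    [Algebra K L] {χ : (L ≃ₐ[K] L) → ℂ} {n r : ℕ} (hn : 0 < n)
    {y : Fin r → Pool.Agent.K4H74.SK.Ext} {ψ : ∀ i, ((y i).L ≃ₐ[(y i).K] (y i).L) → ℂ}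
    {k : Fin r → ℤ} (hrel : ∀ s : ℂ, 1 + (D.w : ℝ) / 2 < s.re →
      (n : ℂ) * lgT D ι K L χ s = ∑ i, (k i : ℂ) * lgT D ι (y i).K (y i).L (ψ i) s)
    (hmer : ∃ f, IsTwistL D ι K L χ m f) {v : Fin r → ℂ} (hv : ∀ i, v i ≠ 0)
    (hval : ∀ i, HasTwistValue D ι (y i).K (y i).L (ψ i) m (v i)) :
    ∃ z : ℂ, z ^ n = ∏ i, v i ^ k i ∧ HasTwistValue D ι K L χ m z := by
  obtain ⟨f, hf1, hf2⟩ := hmer
  choose g hg hgt using hval
  have h1 : ∀ s : ℂ, (m : ℝ) ≤ s.re → MeromorphicAt (fun s => ∏ i, g i s ^ k i) s := fun s hs =>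
    MeromorphicAt.fun_prod fun i _ => ((hg i).1 s hs).fun_zpow _
  have h2 : ∀ s : ℂ, 1 + (D.w : ℝ) / 2 < s.re → f s ^ n = ∏ i, g i s ^ k i := by
    intro s hs
    obtain ⟨l, hl, hfl⟩ := hf2 s hs
    choose l' hl' hgl using fun i => (hg i).2 s hs
    have h3 := hrel s hs
    rw [lgT_eq D ι hl, Finset.sum_congr rfl (fun i _ => by rw [lgT_eq D ι (hl' i)])] at h3
    rw [hfl, ← Complex.exp_nat_mul, h3, Complex.exp_sum]
    refine Finset.prod_congr rfl fun i _ => ?_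
    rw [hgl i, ← Complex.exp_int_mul]
  have h3 : Tendsto (fun s => ∏ i, g i s ^ k i) (𝓝[≠] (m : ℂ)) (𝓝 (∏ i, v i ^ k i)) :=
    tendsto_finsetProd _ fun i _ => (hgt i).zpow₀ _ (Or.inl (hv i))
  obtain ⟨z, hz, hzt⟩ := exists_value hf1 h1 hn h2
    (Finset.prod_ne_zero_iff.mpr fun i _ => zpow_ne_zero _ (hv i)) h3
  exact ⟨z, hz, f, ⟨hf1, hf2⟩, hzt⟩

lemma pr_ne (m : ℤ) : D.period ι m ≠ 0 := by
  rw [MotiveData.period]
  split_ifs
  · exact D.Iplus_det ι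
  · exact D.Iminus_det ι

lemma twistPeriod_ne (m : ℤ) (a b : ℕ) : twistPeriod D ι m a b ≠ 0 :=
  mul_ne_zero (zpow_ne_zero _ Complex.two_pi_I_ne_zero)
    (mul_ne_zero (pow_ne_zero _ (pr_ne D ι m)) (pow_ne_zero _ (pr_ne D ι (m + 1))))

/-- the periods of a product -/
lemma twistPeriod_prod (m : ℤ) {n r : ℕ} {k : Fin r → ℤ} {a b : ℕ} {a' b' : Fin r → ℕ}
    (ha : ∑ i, k i * (a' i : ℤ) = (n * a : ℕ)) (hb : ∑ i, k i * (b' i : ℤ) = (n * b : ℕ)) :
    ∏ i, twistPeriod D ι m (a' i) (b' i) ^ k i = twistPeriod D ι m a b ^ n := by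
  have hp := pr_ne D ι
  have hT := Complex.two_pi_I_ne_zero
  simp only [twistPeriod]
  generalize (2 * Real.pi * Complex.I : ℂ) = T at hT ⊢
  simp only [mul_zpow]
  rw [Finset.prod_mul_distrib, Finset.prod_mul_distrib, prod_zpow_nat _ (hp m) _ _ ha,
    prod_zpow_nat _ (hp (m + 1)) _ _ hb]
  have h1 : ∏ i, (T ^ (m * (D.n * (a' i + b' i) : ℕ))) ^ k i
      = (T ^ (m * (D.n * (a + b) : ℕ))) ^ n := by
    rw [← zpow_natCast, ← zpow_mul]
    simp only [← zpow_mul]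
    rw [prod_zpow _ hT]
    congr 1
    have h2 : (m * (D.n * (a + b) : ℕ)) * (n : ℤ) = m * D.n * ((n * a : ℕ) + (n * b : ℕ)) := by
      push_cast
      ring
    rw [h2, ← ha, ← hb, ← Finset.sum_add_distrib, Finset.mul_sum]
    refine Finset.sum_congr rfl fun i _ => ?_
    push_cast
    ring
  rw [h1, mul_pow, mul_pow, ← pow_mul, ← pow_mul, mul_comm a n, mul_comm b n]

end values

section all

open Pool.Agent.K4H74.SK

variable {E : Type} [Field E] (D : MotiveData E)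

/-- all the inductive invariants -/
noncomputable def allI : ArtinInvariant ((((E →+* ℂ) × RingAut ℂ ×
    {s : ℂ // 1 + (D.w : ℝ) / 2 < s.re} → Multiplicative ℂ) × (Bool → Multiplicative ℂ)) ×
      (RingAut ℂ → ℂˣ)) :=
  prodInv (prodInv
    (piInv fun i => sigInv (LInv (wt D i.1) (wt_bdd D i.1) i.2.2.2) (i.2.1 : ℂ →+* ℂ))
    (piInv fun b : Bool => emInv (if b then RingHom.id ℂ else starRingEnd ℂ)))
    (piInv fun σ => sigInv (detInv σ) (σ : ℂ →+* ℂ))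

/-- the function of a pair -/
def fn (x : Pair) : (x.1.L ≃ₐ[x.1.K] x.1.L) → ℂ := x.2

lemma pval_L (x : Pair) (ι : E →+* ℂ) (σ : RingAut ℂ) {s : ℂ}
    (hs : 1 + (D.w : ℝ) / 2 < s.re) : (pval (allI D) x).1.1 (ι, σ, ⟨s, hs⟩)
      = Multiplicative.ofAdd (lgT D ι x.1.K x.1.L (fun g => σ (fn x g)) s) := rfl

lemma pval_em (x : Pair) (b : Bool) : (pval (allI D) x).1.2 b
    = Multiplicative.ofAdd (inducedTrace x.1.K x.1.L
      (if b then RingHom.id ℂ else starRingEnd ℂ) (fn x)) := rfl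

lemma pval_det (x : Pair) (σ : RingAut ℂ) : (((pval (allI D) x).2 σ : ℂˣ) : ℂ)
    = (detVal σ x.1.K x.1.L (fun g => σ (fn x g)) : ℂ) := rfl

variable {x : Pair} {n r : ℕ} {y : Fin r → Pair} {k : Fin r → ℤ}

lemma rel_L (h : pval (allI D) x ^ n = ∏ i, pval (allI D) (y i) ^ k i) (ι : E →+* ℂ)
    (σ : RingAut ℂ) {s : ℂ} (hs : 1 + (D.w : ℝ) / 2 < s.re) :
    (n : ℂ) * lgT D ι x.1.K x.1.L (fun g => σ (fn x g)) s
      = ∑ i, (k i : ℂ) * lgT D ι (y i).1.K (y i).1.L (fun g => σ (fn (y i) g)) s := by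
  have h1 := congrArg (fun z => Multiplicative.toAdd (z.1.1 (ι, σ, ⟨s, hs⟩))) h
  simp only [Prod.pow_fst, Pi.pow_apply, Prod.fst_prod, Finset.prod_apply,
    toAdd_pow, toAdd_prod, toAdd_zpow, pval_L, toAdd_ofAdd, nsmul_eq_mul, zsmul_eq_mul] at h1
  exact h1

lemma rel_em (h : pval (allI D) x ^ n = ∏ i, pval (allI D) (y i) ^ k i) (b : Bool) :
    (n : ℂ) * inducedTrace x.1.K x.1.L (if b then RingHom.id ℂ else starRingEnd ℂ) (fn x)
      = ∑ i, (k i : ℂ) * inducedTrace (y i).1.K (y i).1.L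
        (if b then RingHom.id ℂ else starRingEnd ℂ) (fn (y i)) := by
  have h1 := congrArg (fun z => Multiplicative.toAdd (z.1.2 b)) h
  simp only [Prod.pow_fst, Prod.pow_snd, Pi.pow_apply, Prod.fst_prod, Prod.snd_prod,
    Finset.prod_apply, toAdd_pow, toAdd_prod, toAdd_zpow, pval_em, toAdd_ofAdd, nsmul_eq_mul,
    zsmul_eq_mul] at h1
  exact h1

lemma rel_det (h : pval (allI D) x ^ n = ∏ i, pval (allI D) (y i) ^ k i) (σ : RingAut ℂ) :
    (detVal σ x.1.K x.1.L (fun g => σ (fn x g)) : ℂ) ^ n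
      = ∏ i, (detVal σ (y i).1.K (y i).1.L (fun g => σ (fn (y i) g)) : ℂ) ^ k i := by
  have h1 := congrArg (fun z => ((z.2 σ : ℂˣ) : ℂ)) h
  simp only [Prod.pow_snd, Pi.pow_apply, Prod.snd_prod, Finset.prod_apply,
    Units.val_pow_eq_pow_val, Units.coe_prod, Units.val_zpow_eq_zpow_val, pval_det] at h1
  exact h1

lemma inducedTrace_id {K L : Type} [Field K] [NumberField K] [Field L] [NumberField L]
    [Algebra K L] [IsGalois K L] (χ : (L ≃ₐ[K] L) → ℂ) :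
    inducedTrace K L (RingHom.id ℂ) χ = Module.finrank ℚ K * χ 1 := emTr_id χ

/-- the signatures -/
lemma rel_sig (h : pval (allI D) x ^ n = ∏ i, pval (allI D) (y i) ^ k i) {a b : ℕ}
    (hab : IsSignature x.1.K x.1.L (fn x) a b) {a' b' : Fin r → ℕ}
    (hab' : ∀ i, IsSignature (y i).1.K (y i).1.L (fn (y i)) (a' i) (b' i)) :
    ∑ i, k i * (a' i : ℤ) = (n * a : ℕ) ∧ ∑ i, k i * (b' i : ℤ) = (n * b : ℕ) := by
  have h1 := rel_em D h true
  have h2 := rel_em D h false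
  simp only [if_true, Bool.false_eq_true, if_false] at h1 h2
  rw [inducedTrace_id, ← hab.1, Finset.sum_congr rfl (fun i _ => by
    rw [inducedTrace_id, ← (hab' i).1])] at h1
  rw [← hab.2, Finset.sum_congr rfl (fun i _ => by rw [← (hab' i).2])] at h2
  have h5 : ∑ i, (k i : ℂ) * a' i = n * a := by
    have : ∀ i, (k i : ℂ) * a' i = (2 : ℂ)⁻¹ * ((k i : ℂ) * (a' i + b' i)
        + (k i : ℂ) * (a' i - b' i)) := fun i => by ring
    rw [Finset.sum_congr rfl (fun i _ => this i), ← Finset.mul_sum, Finset.sum_add_distrib, ← h1,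
      ← h2]
    ring
  have h6 : ∑ i, (k i : ℂ) * b' i = n * b := by
    have : ∀ i, (k i : ℂ) * b' i = (2 : ℂ)⁻¹ * ((k i : ℂ) * (a' i + b' i)
        - (k i : ℂ) * (a' i - b' i)) := fun i => by ring
    rw [Finset.sum_congr rfl (fun i _ => this i), ← Finset.mul_sum, Finset.sum_sub_distrib, ← h1,
      ← h2]
    ring
  exact ⟨by exact_mod_cast h5, by exact_mod_cast h6⟩

end all

section main

open Pool.Agent.K4H74.SK

variable {E : Type} [Field E] (D : MotiveData E)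

/-- the basic pairs satisfy the conjecture and are characters -/
def TT (S : Set ℕ) (m : ℤ) (y : Pair) : Prop :=
  DeligneTwist D y.1.K y.1.L S (fn y) m ∧ IsChar (fn y)

theorem main_pair {m : ℤ} {S : Set ℕ} {m₀ : ℕ} (hm₀ : m₀ ≠ 0) {x : Pair} (hx : IsChar (fn x))
    (N : Type) [Field N] [NumberField N] [IsGalois ℚ N] [Algebra x.1.L N] {e : ℕ}
    (he : ∀ g : N ≃ₐ[ℚ] N, g ^ e = 1)
    (h1 : ∀ (F : Type) [Field F] [NumberField F], DeligneTwist D F F S (fun _ => 1) m)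
    (h2 : ∀ (F H : Type) [Field F] [NumberField F] [Field H] [NumberField H] [Algebra F H]
      [IsGalois F H], IsTotallyReal F → ∀ ψ : (H ≃ₐ[F] H) →* ℂˣ, TotallyOdd ψ →
        DeligneTwist D F H S (fun g => ((ψ g : ℂˣ) : ℂ)) m)
    (h3 : ∀ (F H : Type) [Field F] [NumberField F] [Field H] [NumberField H] [Algebra F H]
      [IsGalois F H], IsTotallyComplex F → UnramifiedSplit F H m₀ →
        ∀ ψ : (H ≃ₐ[F] H) →* ℂˣ, Function.Injective ψ → ψ ^ (2 * e) = 1 →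
          DeligneTwist D F H S (fun g => ((ψ g : ℂˣ) : ℂ)) m)
    (hmer : ∀ (ι : E →+* ℂ) (σ : RingAut ℂ), ∃ f,
      IsTwistL D ι x.1.K x.1.L (fun g => σ (fn x g)) m f) :
    DeligneTwist D x.1.K x.1.L (S ∪ {p | p ∣ 2 * Module.finrank ℚ N}) (fn x) m := by
  obtain ⟨n, hn, hp, r, y, k, hyT, h⟩ := power_form2 (allI D) (TT D S m) hm₀
    (fun K _ _ => ⟨h1 K, isChar_one _⟩)
    (fun z hz ψ hψ => ⟨h2 z.K z.L hz ψ (fun φ t ht => hψ t ⟨φ, ht⟩), Pool.Agent.K4H74.ST.IsChar.lc ψ⟩)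
    (fun z hz hP ψ hψ hψe => ⟨h3 z.K z.L hz (fun P hPm =>
      ⟨fun g hg => (hP P hPm).1 g fun y => hg y,
        fun hmP g hg => (hP P hPm).2 hmP g fun y => hg y⟩) ψ hψ hψe, Pool.Agent.K4H74.ST.IsChar.lc ψ⟩)
    (isChr_iff.mpr hx) N he
  have h' : pval (allI D) x ^ n = ∏ i, pval (allI D) (y i) ^ k i := h
  intro ι σ
  have hsg : ∀ z : Pair, IsChar (fn z) → IsChar (fun g => σ (fn z g)) := fun z hz =>
    isChar_sigma hz (σ : ℂ →+* ℂ)
  choose a' b' Y Y' R Z hsig hY hv hv' hdet heq M hM hZ hMp using fun i => (hyT i).1 ι σ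
  obtain ⟨a, b, hab1, hab2⟩ := exists_sig hx
  have hab : IsSignature x.1.K x.1.L (fn x) a b := ⟨hab1.trans (inducedTrace_id (fn x)), hab2⟩
  obtain ⟨hA, hB'⟩ := rel_sig D h' hab hsig
  -- the value of `χ`
  have hR : ∀ i, R i ≠ 0 := fun i => isInducedDet_ne (hsg _ (hyT i).2) (hdet i)
  have hZ0 : ∀ i, Z i ≠ 0 := by
    intro i h0
    have := hZ i
    rw [h0, zero_pow (hM i).ne'] at this
    exact zero_ne_one this
  have hY' : ∀ i, Y' i ≠ 0 := by
    intro i h0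
    have h1 := heq i
    rw [h0, mul_zero] at h1
    exact mul_ne_zero ((map_ne_zero (σ : ℂ →+* ℂ)).mpr (hY i)) (pow_ne_zero _ (hR i)) h1
  obtain ⟨z, hz, hzv⟩ := twist_value D ι hn (y := fun i => (y i).1) (ψ := fun i => fn (y i))
    (k := k) (χ := fn x) (m := m) (fun s hs => rel_L D h' ι 1 hs) (hmer ι 1)
    (v := fun i => Y i * twistPeriod D ι m (a' i) (b' i))
    (fun i => mul_ne_zero (hY i) (twistPeriod_ne D ι m _ _)) hv
  obtain ⟨z', hz', hzv'⟩ := twist_value D ((σ : ℂ →+* ℂ).comp ι) hn (y := fun i => (y i).1)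
    (ψ := fun i g => σ (fn (y i) g)) (k := k) (χ := fun g => σ (fn x g)) (m := m)
    (fun s hs => rel_L D h' ((σ : ℂ →+* ℂ).comp ι) σ hs) (hmer ((σ : ℂ →+* ℂ).comp ι) σ)
    (v := fun i => Y' i * twistPeriod D ((σ : ℂ →+* ℂ).comp ι) m (a' i) (b' i))
    (fun i => mul_ne_zero (hY' i) (twistPeriod_ne D ((σ : ℂ →+* ℂ).comp ι) m _ _)) hv'
  have hP := twistPeriod_ne D ι m a b
  have hP' := twistPeriod_ne D ((σ : ℂ →+* ℂ).comp ι) m a b
  simp only [mul_zpow] at hz hz'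
  rw [Finset.prod_mul_distrib, twistPeriod_prod D ι m hA hB'] at hz
  rw [Finset.prod_mul_distrib, twistPeriod_prod D ((σ : ℂ →+* ℂ).comp ι) m hA hB'] at hz'
  set P := twistPeriod D ι m a b with hPdef
  set P' := twistPeriod D ((σ : ℂ →+* ℂ).comp ι) m a b with hP'def
  have e1 : (z / P) ^ n = ∏ i, Y i ^ k i := by
    rw [div_pow, hz]
    field_simp
  have e2 : (z' / P') ^ n = ∏ i, Y' i ^ k i := by
    rw [div_pow, hz']
    field_simp
  have hzP : z / P ≠ 0 := by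
    intro h0
    rw [h0, zero_pow hn.ne'] at e1
    exact Finset.prod_ne_zero_iff.mpr (fun i _ => zpow_ne_zero _ (hY i)) e1.symm
  have hzP' : z' / P' ≠ 0 := by
    intro h0
    rw [h0, zero_pow hn.ne'] at e2
    exact Finset.prod_ne_zero_iff.mpr (fun i _ => zpow_ne_zero _ (hY' i)) e2.symm
  -- the determinants
  let ρ : ℂ := (detVal σ x.1.K x.1.L (fun g => σ (fn x g)) : ℂ)
  have hρ : ρ ^ n = ∏ i, R i ^ k i := by
    have h1 := rel_det D h' σ
    rw [Finset.prod_congr rfl (fun i _ => by rw [detVal_of (hR i) (hdet i)])] at h1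
    exact h1
  refine ⟨a, b, z / P, z' / P', ρ, σ (z / P) * ρ ^ D.n / (z' / P'), hab, hzP, ?_, ?_,
    isInducedDet_iff.mpr (detVal_spec σ (hsg x hx)), ?_, n * ∏ i, M i, ?_, ?_, ?_⟩
  · rw [div_mul_cancel₀ _ hP]
    exact hzv
  · rw [div_mul_cancel₀ _ hP']
    exact hzv'
  · rw [div_mul_cancel₀ _ hzP']
  · exact Nat.mul_pos hn (Finset.prod_pos fun i _ => hM i)
  · have e3 : (σ (z / P) * ρ ^ D.n / (z' / P')) ^ n = ∏ i, Z i ^ k i := by
      rw [div_pow, mul_pow, ← map_pow, e1, e2, ← pow_mul, mul_comm D.n n, pow_mul, hρ, map_prod,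
        ← Finset.prod_pow, ← Finset.prod_mul_distrib, ← Finset.prod_div_distrib]
      refine Finset.prod_congr rfl fun i _ => ?_
      have h1 : Z i = σ (Y i) * R i ^ D.n / Y' i := by
        rw [heq i, mul_div_assoc, div_self (hY' i), mul_one]
      rw [h1, div_zpow, mul_zpow, map_zpow₀, ← zpow_natCast, ← zpow_natCast, ← zpow_mul,
        ← zpow_mul, mul_comm (k i)]
    rw [pow_mul, e3, ← Finset.prod_pow]
    refine Finset.prod_eq_one fun i _ => ?_
    obtain ⟨q, hq⟩ : M i ∣ ∏ i, M i := Finset.dvd_prod_of_mem M (Finset.mem_univ i)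
    rw [hq, pow_mul, ← zpow_natCast (Z i ^ k i) (M i), ← zpow_mul, mul_comm (k i), zpow_mul,
      zpow_natCast, hZ i, one_zpow, one_pow]
  · intro p hpp hpd
    rcases (Nat.Prime.dvd_mul hpp).mp hpd with h1 | h1
    · exact Or.inr (hp p hpp h1)
    · obtain ⟨i, -, hi⟩ := (hpp.prime.dvd_finsetProd_iff M).mp h1
      exact Or.inl (hMp i p hpp hi)

theorem main {m : ℤ} {S : Set ℕ} {m₀ : ℕ} (hm₀ : m₀ ≠ 0) {K L : Type} [Field K] [NumberField K]
    [Field L] [NumberField L] [Algebra K L] [IsGalois K L] {χ : (L ≃ₐ[K] L) → ℂ}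
    (hx : IsCharacter χ)
    (N : Type) [Field N] [NumberField N] [IsGalois ℚ N] [Algebra L N] {e : ℕ}
    (he : ∀ g : N ≃ₐ[ℚ] N, g ^ e = 1)
    (h1 : ∀ (F : Type) [Field F] [NumberField F], DeligneTwist D F F S (fun _ => 1) m)
    (h2 : ∀ (F H : Type) [Field F] [NumberField F] [Field H] [NumberField H] [Algebra F H]
      [IsGalois F H], IsTotallyReal F → ∀ ψ : (H ≃ₐ[F] H) →* ℂˣ, TotallyOdd ψ →
        DeligneTwist D F H S (fun g => ((ψ g : ℂˣ) : ℂ)) m)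
    (h3 : ∀ (F H : Type) [Field F] [NumberField F] [Field H] [NumberField H] [Algebra F H]
      [IsGalois F H], IsTotallyComplex F → UnramifiedSplit F H m₀ →
        ∀ ψ : (H ≃ₐ[F] H) →* ℂˣ, Function.Injective ψ → ψ ^ (2 * e) = 1 →
          DeligneTwist D F H S (fun g => ((ψ g : ℂˣ) : ℂ)) m)
    (hmer : ∀ (ι : E →+* ℂ) (σ : RingAut ℂ), ∃ f, IsTwistL D ι K L (fun g => σ (χ g)) m f) :
    DeligneTwist D K L (S ∪ {p | p ∣ 2 * Module.finrank ℚ N}) χ m :=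
  main_pair D hm₀ (x := ⟨⟨K, L⟩, χ⟩) hx N he h1 h2 h3 hmer

end main

end Pool.Agent.K9h41.DC.Tw
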