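import Mathlib
import Pool.Agent.K9h41.DC.As

/-!
# Nonvanishing, and the main theorem
-/

set_option autoImplicit false
set_option linter.unusedSectionVars false

namespace Pool.Agent.K9h41.DC

open NumberField NumberField.InfinitePlace IntermediateField IsDedekindDomain Filter Topology
  Pool.Agent.R389 Pool.Agent.K4H74.ST Pool.Agent.K4H74.SC

section nv

variable {E : Type} [Field E] (D : MotiveData E) (ι : E →+* ℂ) {k : Type} [Field k] [NumberField k]

lemma wTerm_mono (w : ℕ → ℂ) {σ : ℝ} {s : ℂ} (hs : σ ≤ s.re)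
    (x : HeightOneSpectrum (𝓞 k) × ℕ+) :
    ‖wTerm w k k (fun _ => 1) s x‖ ≤ ‖wTerm w k k (fun _ => 1) (σ : ℂ) x‖ := by
  obtain ⟨v, n⟩ := x
  have hN : 2 ≤ Ideal.absNorm v.asIdeal := two_le_absNorm v
  have hN1 : (1 : ℝ) ≤ Ideal.absNorm v.asIdeal := by exact_mod_cast (by omega)
  have hN0 : (0 : ℝ) < Ideal.absNorm v.asIdeal := by linarith
  have hn : (0 : ℝ) < ((n : ℕ) : ℝ) := by exact_mod_cast n.pos
  rw [wTerm_one, wTerm_one, norm_mul, norm_mul]
  refine mul_le_mul_of_nonneg_left ?_ (norm_nonneg _)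
  rw [norm_div, norm_div, norm_one, norm_mul, norm_mul,
    Complex.norm_natCast_cpow_of_pos (by omega), Complex.norm_natCast_cpow_of_pos (by omega)]
  have h1 : ((((n : ℕ) : ℂ) * s)).re = (n : ℕ) * s.re := by simp
  have h2 : ((((n : ℕ) : ℂ) * (σ : ℂ))).re = (n : ℕ) * σ := by simp
  rw [h1, h2, Complex.norm_natCast]
  refine one_div_le_one_div_of_le (mul_pos hn (Real.rpow_pos_of_pos hN0 _)) ?_
  refine mul_le_mul_of_nonneg_left ?_ hn.le
  exact Real.rpow_le_rpow_of_exponent_le hN1 (mul_le_mul_of_nonneg_left hs hn.le)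

/-- the values in the domain of absolute convergence are not zero -/
theorem not_zero {m : ℤ} (hm : 1 + (D.w : ℝ) / 2 < m) : ¬ HasLValue D ι k m 0 := by
  rintro ⟨f, -, hf, ht⟩
  obtain ⟨σ, hσ1, hσ2⟩ := exists_between hm
  have hsum : Summable (wTerm (wt D ι) k k (fun _ => 1) (σ : ℂ)) :=
    wTerm_summable (wt_bdd D ι) _ (by simpa using hσ1)
  let B : ℝ := ∑' x, ‖wTerm (wt D ι) k k (fun _ => 1) (σ : ℂ) x‖
  have h1 : ∀ s : ℂ, σ < s.re → Real.exp (-B) ≤ ‖f s‖ := by
    intro s hs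
    have h2 : f s = Complex.exp (lg D ι k s) :=
      (hf s (by linarith)).unique (hasProd_euler D ι (by linarith))
    have h3 : ‖lg D ι k s‖ ≤ B := by
      refine tsum_of_norm_bounded hsum.norm.hasSum fun x => ?_
      exact wTerm_mono _ hs.le x
    rw [h2, Complex.norm_exp]
    apply Real.exp_le_exp.mpr
    have h4 := Complex.abs_re_le_norm (lg D ι k s)
    linarith [abs_le.mp (h4.trans h3) |>.1]
  have h2 : ∀ᶠ s : ℂ in 𝓝[≠] (m : ℂ), Real.exp (-B) ≤ ‖f s‖ := by
    have h3 : {s : ℂ | σ < s.re} ∈ 𝓝 (m : ℂ) :=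
      (isOpen_lt continuous_const Complex.continuous_re).mem_nhds (by simpa using hσ2)
    filter_upwards [nhdsWithin_le_nhds h3] with s hs
    exact h1 s hs
  have h3 := ge_of_tendsto ht.norm h2
  rw [norm_zero] at h3
  exact absurd h3 (not_le.mpr (Real.exp_pos _))

end nv

section main

variable {E : Type} [Field E] [NumberField E] (D : MotiveData E) (K : Type) [Field K]
  [NumberField K] [IsGalois ℚ K] (m : ℤ)

theorem main
    (hD : ∀ U : Subgroup (K ≃ₐ[ℚ] K), Hyperelementary U → ∃ e : E, DeligneWith D (fixedField U) m e)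
    (hN : (m : ℝ) ≤ 1 + (D.w : ℝ) / 2 → ∀ U : Subgroup (K ≃ₐ[ℚ] K), Hyperelementary U →
      ∃ ι : E →+* ℂ, ¬ HasLValue D ι (fixedField U) m 0) :
    (∀ F : IntermediateField ℚ K, ∃ e : E, e ≠ 0 ∧ DeligneWith D F m e) ∧
    ∃ e : E, e ≠ 0 ∧ ∀ ι : E →+* ℂ, HasLValue D ι ℚ m
      (ι e * ((2 * Real.pi * Complex.I) ^ (m * D.n) * D.period ι m)) := by
  let φ : K →ₐ[ℚ] ℂ := IsAlgClosed.lift
  have h : ∀ U : Subgroup (K ≃ₐ[ℚ] K), Hyperelementary U →
      ∃ e : E, e ≠ 0 ∧ DeligneWith D (fixedField U) m e := by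
    intro U hU
    obtain ⟨e, he⟩ := hD U hU
    refine ⟨e, ?_, he⟩
    rintro rfl
    obtain ⟨δ, -, h2⟩ := he
    have h3 : ∃ ι : E →+* ℂ, ¬ HasLValue D ι (fixedField U) m 0 := by
      rcases le_or_gt (m : ℝ) (1 + (D.w : ℝ) / 2) with h4 | h4
      · exact hN h4 U hU
      · obtain ⟨ι⟩ : Nonempty (E →+* ℂ) := inferInstance
        exact ⟨ι, not_zero D ι h4⟩
    obtain ⟨ι, hι⟩ := h3
    apply hι
    have h4 := h2 ι
    rwa [map_zero, zero_mul] at h4
  constructor
  · intro F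
    have h1 := assemble D (match_fixed φ F.fixingSubgroup) h
    rwa [IsGalois.fixedField_fixingSubgroup F] at h1
  · obtain ⟨e, he, δ, hδ, h1⟩ := assemble D (match_rat φ) h
    have hδ' : δ = 1 ∨ δ = -1 := by
      rw [Rat.numberField_discr, Int.cast_one] at hδ
      have h2 : (δ - 1) * (δ + 1) = 0 := by linear_combination hδ
      rcases mul_eq_zero.mp h2 with h3 | h3
      · exact Or.inl (sub_eq_zero.mp h3)
      · exact Or.inr (eq_neg_of_add_eq_zero_left h3)
    have hr := card_add_two_mul_card_eq_rank ℚ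
    rw [Module.finrank_self] at hr
    have hr1 : nrRealPlaces ℚ = 1 := by omega
    have hr2 : nrComplexPlaces ℚ = 0 := by omega
    rw [hr1, hr2, Module.finrank_self] at h1
    refine ⟨e * (if δ = 1 then 1 else -1) ^ D.n, ?_, fun ι => ?_⟩
    · refine mul_ne_zero he (pow_ne_zero _ ?_)
      split_ifs
      · exact one_ne_zero
      · exact neg_ne_zero.mpr one_ne_zero
    · have h2 := h1 ι
      convert h2 using 1
      rcases hδ' with rfl | rfl
      · simp
      · have h3 : ¬ ((-1 : ℂ) = 1) := by norm_num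
        simp only [h3, if_false, map_mul, map_pow, map_neg, map_one]
        simp
        ring

end main

end Pool.Agent.K9h41.DC
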